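import Pool.Agent.Q219.ZG.Red
import Pool.Agent.Q219.ZN.Min

/-!
# Cyclic fields: one element suffices
-/

set_option autoImplicit false

namespace Pool.Agent.W2helper89.ZS

open GonP NumberField Pool.Agent.Q219.ZG Pool.Agent.Q219.ZN Polynomial

section

variable {T : KTheory} {n : ℕ} {F : Type} [Field F] [NumberField F]

/-- the order of a generator -/
lemma orderOf_gen {γ : F ≃ₐ[ℚ] F} (hγ : IsGenerator γ) : orderOf γ = Module.finrank ℚ F := by
  obtain ⟨hG, hz⟩ := hγ
  rw [orderOf_eq_card_of_forall_mem_zpowers hz, IsGalois.card_aut_eq_finrank]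

/-- polynomials in the action on a stable subspace -/
lemma aeval_mem {V : Type} [AddCommGroup V] [Module ℚ V] {A : Module.End ℚ V} {U : Submodule ℚ V}
    (hU : ∀ u ∈ U, A u ∈ U) (p : ℚ[X]) {u : V} (hu : u ∈ U) : aeval A p u ∈ U := by
  induction p using Polynomial.induction_on' with
  | add p q hp hq =>
    rw [map_add]
    exact U.add_mem hp hq
  | monomial k a =>
    rw [aeval_monomial]
    show a • (A ^ k) u ∈ U
    refine U.smul_mem _ ?_
    induction k with
    | zero => exact hu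
    | succ k ih =>
      rw [pow_succ', Module.End.mul_apply]
      exact hU _ ih

/-- the cyclotomic factors -/
lemma cyclo_factor {V : Type} [AddCommGroup V] [Module ℚ V] {A : Module.End ℚ V}
    {U : Submodule ℚ V} (hU : ∀ u ∈ U, A u ∈ U) {m : ℕ}
    (hfree : ∀ d : ℕ, 0 < d → d < m → ∀ u ∈ U, (A ^ d) u = u → u = 0) (S : Finset ℕ)
    (hS : ∀ d ∈ S, 0 < d ∧ d < m) {u : V} (hu : u ∈ U)
    (h : aeval A (∏ d ∈ S, cyclotomic d ℚ) u = 0) : u = 0 := by
  classical
  induction S using Finset.induction_on with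
  | empty =>
    rw [Finset.prod_empty, map_one] at h
    exact h
  | insert d S hd ih =>
    rw [Finset.prod_insert hd, map_mul, Module.End.mul_apply] at h
    refine ih (fun e he => hS e (Finset.mem_insert_of_mem he)) ?_
    have hw := aeval_mem hU (∏ d ∈ S, cyclotomic d ℚ) hu
    obtain ⟨hd0, hdm⟩ := hS d (Finset.mem_insert_self d S)
    refine hfree d hd0 hdm _ hw ?_
    obtain ⟨q, hq⟩ := cyclotomic.dvd_X_pow_sub_one d ℚ
    have h1 : aeval A (X ^ d - 1 : ℚ[X]) (aeval A (∏ d ∈ S, cyclotomic d ℚ) u) = 0 := by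
      rw [hq, mul_comm, map_mul, Module.End.mul_apply, h, map_zero]
    rw [map_sub, map_pow, aeval_X, map_one] at h1
    exact sub_eq_zero.1 h1

/-- the product of the other cyclotomic polynomials -/
noncomputable def cofactor (m : ℕ) : ℚ[X] := ∏ d ∈ m.properDivisors, cyclotomic d ℚ

lemma cyclo_mul {m : ℕ} (hm : 0 < m) : cyclotomic m ℚ * cofactor m = X ^ m - 1 :=
  (eq_cyclotomic_iff hm _).1 rfl

lemma cyclo_zero {V : Type} [AddCommGroup V] [Module ℚ V] {A : Module.End ℚ V}
    {U : Submodule ℚ V} (hU : ∀ u ∈ U, A u ∈ U) {m : ℕ} (hm : 0 < m) (hA : A ^ m = 1)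
    (hfree : ∀ d : ℕ, 0 < d → d < m → ∀ u ∈ U, (A ^ d) u = u → u = 0) {u : V} (hu : u ∈ U) :
    aeval A (cyclotomic m ℚ) u = 0 := by
  refine cyclo_factor hU hfree m.properDivisors ?_ (aeval_mem hU _ hu) ?_
  · intro d hd
    rw [Nat.mem_properDivisors] at hd
    exact ⟨Nat.pos_of_dvd_of_pos hd.1 hm, hd.2⟩
  · show aeval A (cofactor m) (aeval A (cyclotomic m ℚ) u) = 0
    rw [← Module.End.mul_apply, ← map_mul, mul_comm, cyclo_mul hm, map_sub, map_pow, aeval_X, hA, map_one,
      sub_self]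
    rfl

/-- polynomials of small degree -/
lemma poly_zero {V : Type} [AddCommGroup V] [Module ℚ V] {A : Module.End ℚ V} {m : ℕ} (hm : 0 < m)
    {u : V} (hu : u ≠ 0) (h : aeval A (cyclotomic m ℚ) u = 0) {p : ℚ[X]}
    (hp : p.degree < (cyclotomic m ℚ).degree) (hpu : aeval A p u = 0) : p = 0 := by
  by_contra hp0
  have hirr : Irreducible (cyclotomic m ℚ) := cyclotomic.irreducible_rat hm
  have h1 : IsCoprime (cyclotomic m ℚ) p := by
    rw [hirr.coprime_iff_not_dvd]
    intro hdvd
    exact absurd (degree_le_of_dvd hdvd hp0) (not_le.2 hp)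
  obtain ⟨s, t, hst⟩ := h1
  refine hu ?_
  have h2 : aeval A (s * cyclotomic m ℚ + t * p) u = u := by
    rw [hst, map_one]
    rfl
  rw [← h2, map_add, map_mul, map_mul]
  show aeval A s (aeval A (cyclotomic m ℚ) u) + aeval A t (aeval A p u) = 0
  rw [h, hpu, map_zero, map_zero, add_zero]

/-- linear independence of the powers -/
lemma coeffs_zero {V : Type} [AddCommGroup V] [Module ℚ V] {A : Module.End ℚ V} {m : ℕ} (hm : 0 < m)
    {u : V} (hu : u ≠ 0) (h : aeval A (cyclotomic m ℚ) u = 0)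
    (g : Fin (cyclotomic m ℚ).natDegree → ℚ) (hg : ∑ i, g i • (A ^ (i : ℕ)) u = 0)
    (i : Fin (cyclotomic m ℚ).natDegree) : g i = 0 := by
  have h1 : (∑ i : Fin (cyclotomic m ℚ).natDegree, monomial (i : ℕ) (g i) : ℚ[X]) = 0 := by
    refine poly_zero hm hu h ?_ ?_
    · rw [degree_eq_natDegree (cyclotomic_ne_zero m ℚ)]
      refine lt_of_le_of_lt (degree_sum_le _ _) ?_
      rw [Finset.sup_lt_iff (by exact WithBot.bot_lt_coe _)]
      intro j _
      refine lt_of_le_of_lt (degree_monomial_le _ _) ?_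
      exact_mod_cast j.2
    · rw [map_sum]
      simp only [aeval_monomial]
      rw [LinearMap.sum_apply]
      exact hg
  have h2 := congrArg (fun p : ℚ[X] => p.coeff (i : ℕ)) h1
  simp only [finsetSum_coeff, coeff_monomial] at h2
  rw [Finset.sum_eq_single i] at h2
  · rw [if_pos rfl] at h2
    exact h2.trans (Polynomial.coeff_zero _)
  · intro j _ hj
    rw [if_neg]
    intro h3
    exact hj (Fin.ext h3)
  · intro h3
    exact absurd (Finset.mem_univ _) h3

/-- the sum `Σ_(k < m) ζ^k reg(σ γ^k)` as a linear map -/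
noncomputable def ell (T : KTheory) {F : Type} [Field F] [NumberField F] (σ : F →+* ℂ)
    (γ : F ≃ₐ[ℚ] F) : T.K F →ₗ[ℚ] ℂ where
  toFun y := ∑ k ∈ Finset.range (Module.finrank ℚ F),
    Complex.exp (2 * Real.pi * Complex.I / (Module.finrank ℚ F : ℕ)) ^ k *
      (T.reg (σ.comp ((γ ^ k : F ≃ₐ[ℚ] F) : F →+* F)) y : ℂ)
  map_add' y z := by
    rw [← Finset.sum_add_distrib]
    refine Finset.sum_congr rfl fun k _ => ?_
    rw [map_add]
    push_cast
    ring
  map_smul' q y := by
    rw [Finset.smul_sum]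
    refine Finset.sum_congr rfl fun k _ => ?_
    rw [map_smul]
    simp only [Rat.smul_def, RingHom.id_apply]
    push_cast
    ring

lemma ell_apply (T : KTheory) {F : Type} [Field F] [NumberField F] (σ : F →+* ℂ)
    (γ : F ≃ₐ[ℚ] F) (y : T.K F) : ell T σ γ y = ∑ k ∈ Finset.range (Module.finrank ℚ F),
    Complex.exp (2 * Real.pi * Complex.I / (Module.finrank ℚ F : ℕ)) ^ k *
      (T.reg (σ.comp ((γ ^ k : F ≃ₐ[ℚ] F) : F →+* F)) y : ℂ) := rfl

lemma root_prim (F : Type) [Field F] [NumberField F] :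
    IsPrimitiveRoot (Complex.exp (2 * Real.pi * Complex.I / (Module.finrank ℚ F : ℕ)))
      (Module.finrank ℚ F) :=
  Complex.isPrimitiveRoot_exp _ Module.finrank_pos.ne'

/-- the action of the generator -/
lemma ell_act (hT : T.IsKnown' n) (σ : F →+* ℂ) {γ : F ≃ₐ[ℚ] F} (hγ : IsGenerator γ) (y : T.K F) :
    Complex.exp (2 * Real.pi * Complex.I / (Module.finrank ℚ F : ℕ)) * ell T σ γ (act hT F γ y) =
      ell T σ γ y := by
  set m := Module.finrank ℚ F with hm
  set ζ := Complex.exp (2 * Real.pi * Complex.I / (m : ℕ)) with hζ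
  have hζm : ζ ^ m = 1 := (root_prim F).pow_eq_one
  have hγm : γ ^ m = 1 := by
    rw [hm, ← orderOf_gen hγ]
    exact pow_orderOf_eq_one γ
  set g : ℕ → ℂ := fun k => ζ ^ k * (T.reg (σ.comp ((γ ^ k : F ≃ₐ[ℚ] F) : F →+* F)) y : ℂ) with hg
  have h1 : ζ * ell T σ γ (act hT F γ y) = ∑ k ∈ Finset.range m, g (k + 1) := by
    rw [ell_apply, Finset.mul_sum]
    refine Finset.sum_congr rfl fun k _ => ?_
    have h2 : T.reg (σ.comp ((γ ^ k : F ≃ₐ[ℚ] F) : F →+* F)) (act hT F γ y) =
        T.reg (σ.comp ((γ ^ (k + 1) : F ≃ₐ[ℚ] F) : F →+* F)) y := by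
      rw [act_apply, hT.map_reg]
      rfl
    rw [h2, hg]
    ring
  have h3 : ell T σ γ y = ∑ k ∈ Finset.range m, g k := rfl
  rw [h1, h3]
  have h4 := Finset.sum_range_succ g m
  have h5 := Finset.sum_range_succ' g m
  rw [h4] at h5
  have h6 : g m = g 0 := by
    show ζ ^ m * _ = ζ ^ 0 * _
    rw [hζm, hγm, pow_zero, pow_zero]
  rw [h6] at h5
  exact (add_right_cancel h5).symm

/-- polynomials in the action of the generator -/
lemma ell_aeval (hT : T.IsKnown' n) (σ : F →+* ℂ) {γ : F ≃ₐ[ℚ] F} (hγ : IsGenerator γ) (p : ℚ[X])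
    (y : T.K F) : ell T σ γ (aeval (act hT F γ) p y) =
      aeval (Complex.exp (2 * Real.pi * Complex.I / (Module.finrank ℚ F : ℕ)))⁻¹ p * ell T σ γ y := by
  set ζ := Complex.exp (2 * Real.pi * Complex.I / (Module.finrank ℚ F : ℕ)) with hζ
  have hζ0 : ζ ≠ 0 := Complex.exp_ne_zero _
  have h1 : ∀ y, ell T σ γ (act hT F γ y) = ζ⁻¹ * ell T σ γ y := by
    intro y
    rw [← ell_act hT σ hγ y, ← mul_assoc, inv_mul_cancel₀ hζ0, one_mul]
  induction p using Polynomial.induction_on' with
  | add p q hp hq =>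
    rw [map_add, map_add, add_mul, ← hp, ← hq, LinearMap.add_apply, map_add]
  | monomial k a =>
    rw [aeval_monomial, aeval_monomial]
    have h2 : ∀ k : ℕ, ell T σ γ ((act hT F γ ^ k) y) = ζ⁻¹ ^ k * ell T σ γ y := by
      intro k
      induction k with
      | zero =>
        rw [pow_zero, pow_zero, one_mul]
        rfl
      | succ k ih => rw [pow_succ', Module.End.mul_apply, h1, ih, pow_succ', mul_assoc]
    show ell T σ γ (a • (act hT F γ ^ k) y) = _
    rw [map_smul, h2]
    show a • _ = (algebraMap ℚ ℂ a) * _ * _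
    rw [Rat.smul_def, mul_assoc]
    rfl

/-- the cofactor does not vanish at the primitive roots of unity -/
lemma cofactor_ne {m : ℕ} {η : ℂ} (hη : IsPrimitiveRoot η m) : aeval η (cofactor m) ≠ 0 := by
  unfold cofactor
  rw [map_prod, Finset.prod_ne_zero_iff]
  intro d hd h0
  rw [Nat.mem_properDivisors] at hd
  obtain ⟨q, hq⟩ := cyclotomic.dvd_X_pow_sub_one d ℚ
  have h1 : aeval η (X ^ d - 1 : ℚ[X]) = 0 := by
    rw [hq, map_mul, h0, zero_mul]
  rw [map_sub, map_pow, aeval_X, map_one, sub_eq_zero] at h1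
  have h2 := hη.dvd_of_pow_eq_one d h1
  rcases Nat.eq_zero_or_pos d with h3 | h3
  · rw [h3, zero_dvd_iff] at hd
    omega
  · exact absurd (Nat.le_of_dvd h3 h2) (not_le.2 hd.2)

/-- the dimension of the space of the functions which are killed by the cyclotomic polynomial -/
lemma no_two (hT : T.IsKnown' n) (σ : F →+* ℂ) {γ : F ≃ₐ[ℚ] F} (hγ : IsGenerator γ)
    {W U : Submodule ℚ (T.K F)} (hW : ∀ w ∈ W, act hT F γ w ∈ W) (hU : ∀ w ∈ U, act hT F γ w ∈ U)
    (hWU : W ⊓ U = ⊥) {w u : T.K F} (hw : w ∈ W) (hu : u ∈ U) (hw0 : w ≠ 0) (hu0 : u ≠ 0)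
    (hw1 : aeval (act hT F γ) (cyclotomic (Module.finrank ℚ F) ℚ) w = 0)
    (hu1 : aeval (act hT F γ) (cyclotomic (Module.finrank ℚ F) ℚ) u = 0) : False := by
  have hG := hγ.1
  set A := act hT F γ with hA
  set Φ := cyclotomic (Module.finrank ℚ F) ℚ with hΦ
  set N := Φ.natDegree with hN
  have hm : 0 < Module.finrank ℚ F := Module.finrank_pos
  have hmonic : Φ.Monic := cyclotomic.monic _ _
  have hpos : 0 < N := by
    rw [hN, natDegree_cyclotomic]
    exact Nat.totient_pos.2 hm
  have hpow : ∀ (S : Submodule ℚ (T.K F)), (∀ w ∈ S, A w ∈ S) → ∀ (k : ℕ), ∀ v ∈ S, (A ^ k) v ∈ S := by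
    intro S hS k v hv
    induction k with
    | zero => exact hv
    | succ k ih =>
      rw [pow_succ', Module.End.mul_apply]
      exact hS _ ih
  let v : Fin N ⊕ Fin N → T.K F := Sum.elim (fun i => (A ^ (i : ℕ)) w) (fun i => (A ^ (i : ℕ)) u)
  have hv : LinearIndependent ℚ v := by
    rw [Fintype.linearIndependent_iff]
    intro g hg
    rw [Fintype.sum_sum_type] at hg
    have h1 : ∑ i : Fin N, g (Sum.inl i) • (A ^ (i : ℕ)) w ∈ W :=
      W.sum_mem fun i _ => W.smul_mem _ (hpow W hW _ _ hw)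
    have h2 : ∑ i : Fin N, g (Sum.inr i) • (A ^ (i : ℕ)) u ∈ U :=
      U.sum_mem fun i _ => U.smul_mem _ (hpow U hU _ _ hu)
    have h3 : ∑ i : Fin N, g (Sum.inl i) • (A ^ (i : ℕ)) w =
        - ∑ i : Fin N, g (Sum.inr i) • (A ^ (i : ℕ)) u := eq_neg_of_add_eq_zero_left hg
    have h4 : ∑ i : Fin N, g (Sum.inl i) • (A ^ (i : ℕ)) w = 0 := by
      have h5 : ∑ i : Fin N, g (Sum.inl i) • (A ^ (i : ℕ)) w ∈ W ⊓ U := by
        refine ⟨h1, ?_⟩
        rw [h3]
        exact U.neg_mem h2
      rw [hWU] at h5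
      exact (Submodule.mem_bot ℚ).1 h5
    have h5 : ∑ i : Fin N, g (Sum.inr i) • (A ^ (i : ℕ)) u = 0 := by
      rw [h4] at h3
      exact neg_eq_zero.1 h3.symm
    rintro (i | i)
    · exact coeffs_zero hm hw0 hw1 (fun i => g (Sum.inl i)) h4 i
    · exact coeffs_zero hm hu0 hu1 (fun i => g (Sum.inr i)) h5 i
  have hv0 : ∀ j, aeval A Φ (v j) = 0 := by
    have h1 : ∀ (k : ℕ) (z : T.K F), aeval A Φ z = 0 → aeval A Φ ((A ^ k) z) = 0 := by
      intro k z hz
      have h2 : (A ^ k : Module.End ℚ (T.K F)) = aeval A (X ^ k : ℚ[X]) := by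
        rw [map_pow, aeval_X]
      rw [h2, ← Module.End.mul_apply, ← map_mul, mul_comm, map_mul, Module.End.mul_apply, hz, map_zero]
    rintro (i | i)
    · exact h1 _ _ hw1
    · exact h1 _ _ hu1
  have hreg : ∀ (k : ℕ) (z : T.K F), T.reg σ ((A ^ k) z) =
      T.reg (σ.comp ((γ ^ k : F ≃ₐ[ℚ] F) : F →+* F)) z := by
    intro k z
    rw [hA, ← map_pow, act_apply, hT.map_reg]
  have hR : LinearIndependent ℝ (fun (j : Fin N ⊕ Fin N) (i : Fin N) => T.reg σ ((A ^ (i : ℕ)) (v j))) := by
    rw [Fintype.linearIndependent_iff]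
    intro c hc
    have h1 : ∀ k : ℕ, ∑ j, c j * T.reg σ ((A ^ k) (v j)) = 0 := by
      intro k
      induction k using Nat.strong_induction_on with
      | _ k ih =>
        rcases lt_or_ge k N with hk | hk
        · have h2 := congrFun hc ⟨k, hk⟩
          rw [Finset.sum_apply] at h2
          exact h2
        · obtain ⟨k', rfl⟩ := Nat.exists_eq_add_of_le hk
          have h2 : ∀ j, (A ^ (N + k')) (v j) = - ∑ i ∈ Finset.range N, Φ.coeff i • (A ^ (i + k')) (v j) := by
            intro j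
            have h3 : aeval A (Φ * X ^ k') (v j) = 0 := by
              rw [mul_comm, map_mul, Module.End.mul_apply, hv0, map_zero]
            have h4 : Φ = X ^ N + ∑ i ∈ Finset.range N, C (Φ.coeff i) * X ^ i := hmonic.as_sum
            rw [h4, add_mul, map_add, Finset.sum_mul, map_sum, LinearMap.add_apply, LinearMap.sum_apply,
              ← pow_add, map_pow, aeval_X] at h3
            rw [eq_neg_iff_add_eq_zero, ← h3]
            congr 1
            refine Finset.sum_congr rfl fun i _ => ?_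
            rw [mul_assoc, ← pow_add, map_mul, aeval_C, map_pow, aeval_X]
            rfl
          have h5 : ∑ j, c j * T.reg σ ((A ^ (N + k')) (v j)) =
              - ∑ i ∈ Finset.range N, (Φ.coeff i : ℝ) * ∑ j, c j * T.reg σ ((A ^ (i + k')) (v j)) := by
            simp only [h2, map_neg, map_sum, map_smul, mul_neg, Finset.sum_neg_distrib, Finset.mul_sum]
            rw [Finset.sum_comm]
            congr 1
            refine Finset.sum_congr rfl fun i _ => Finset.sum_congr rfl fun j _ => ?_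
            rw [Rat.smul_def]
            ring
          rw [h5, neg_eq_zero]
          refine Finset.sum_eq_zero fun i hi => ?_
          rw [ih (i + k') (by
            have := Finset.mem_range.1 hi
            omega), mul_zero]
    intro j
    refine indepQ hT.toIsKnown hv c (fun τ => ?_) j
    obtain ⟨g, hg⟩ := NumberField.ComplexEmbedding.exists_comp_symm_eq_of_comp_eq (k := ℚ) σ τ
      (Subsingleton.elim _ _)
    obtain ⟨k, hk⟩ : ∃ k : ℕ, γ ^ k = g.symm := by
      have h2 := hγ.2 g.symm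
      rw [← mem_powers_iff_mem_zpowers] at h2
      exact h2
    rw [← h1 k]
    refine Finset.sum_congr rfl fun j _ => ?_
    rw [hreg, hk, ← hg]
  have h7 := hR.fintype_card_le_finrank
  rw [Module.finrank_fintype_fun_eq_card, Fintype.card_sum, Fintype.card_fin] at h7
  omega

/-- **One element suffices.** -/
theorem zagier_of_element (hT : T.IsKnown' n)
    (h : ∀ E : IntermediateField ℚ F, E ≠ ⊤ → Zagier n E) (hel : HasElement n F) : Zagier n F := by
  by_contra hL
  obtain ⟨U, hs, hne, hf, hinf, hsup⟩ := free_of_not hT h hL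
  obtain ⟨σ, γ, hγ, α, hα, hsum⟩ := hel
  obtain ⟨x, hx⟩ := hT.polylog α hα
  have hm : 0 < Module.finrank ℚ F := Module.finrank_pos
  have hxW : x ∈ polySpace T n F := by
    refine ⟨1, one_ne_zero, α, hα, fun τ => ?_⟩
    rw [Int.cast_one, one_smul, hx]
  have hWs : ∀ w ∈ polySpace T n F, act hT F γ w ∈ polySpace T n F := fun w hw => map_isPoly hT _ hw
  have hUs : ∀ w ∈ U, act hT F γ w ∈ U := fun w hw => hs γ w hw
  have hγm : (act hT F γ) ^ (Module.finrank ℚ F) = 1 := by
    rw [← map_pow, ← orderOf_gen hγ, pow_orderOf_eq_one, map_one]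
  obtain ⟨u, hu, hu0⟩ := (Submodule.ne_bot_iff _).1 hne
  refine no_two hT σ hγ hWs hUs hinf (aeval_mem hWs (cofactor (Module.finrank ℚ F)) hxW) hu ?_ hu0 ?_ ?_
  · intro h0
    have h1 := ell_aeval hT σ hγ (cofactor (Module.finrank ℚ F)) x
    rw [h0, map_zero] at h1
    rcases mul_eq_zero.1 h1.symm with h2 | h2
    · exact cofactor_ne (root_prim F).inv h2
    · refine hsum ?_
      rw [← h2, ell_apply]
      unfold charSum
      refine Finset.sum_congr rfl fun k _ => ?_
      rw [hx]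
  · rw [← Module.End.mul_apply, ← map_mul, cyclo_mul hm, map_sub, map_pow, aeval_X, hγm, map_one, sub_self]
    rfl
  · refine cyclo_zero hUs hm hγm (fun d hd hdm v hv hdv => ?_) hu
    have h1 : T.map ((γ ^ d : F ≃ₐ[ℚ] F) : F →+* F) v = v := by
      have h2 : (act hT F γ ^ d) v = act hT F (γ ^ d) v := by
        rw [map_pow]
      rw [h2] at hdv
      exact hdv
    rcases hf (γ ^ d) v hv h1 with h2 | h2
    · exfalso
      have h3 := orderOf_dvd_of_pow_eq_one h2
      rw [orderOf_gen hγ] at h3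
      exact absurd (Nat.le_of_dvd hd h3) (not_le.2 hdm)
    · exact h2

/-- the embeddings of a cyclic field -/
lemma comp_inj {σ : F →+* ℂ} {g h : F ≃ₐ[ℚ] F} (hgh : σ.comp (g : F →+* F) = σ.comp (h : F →+* F)) :
    g = h := AlgEquiv.ext fun x => σ.injective (RingHom.congr_fun hgh x)

open Classical in
/-- **The converse.** -/
theorem element_of_nonvanishing (hn : 0 < n) (hpar : Parity n F) {γ : F ≃ₐ[ℚ] F}
    (hγ : IsGenerator γ) (hN : Nonvanishing n F) : HasElement n F := by
  have hG := hγ.1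
  obtain ⟨σ⟩ : Nonempty (F →+* ℂ) := inferInstance
  have hm : 0 < Module.finrank ℚ F := Module.finrank_pos
  set ζ := Complex.exp (2 * Real.pi * Complex.I / (Module.finrank ℚ F : ℕ)) with hζ
  have hprim : IsPrimitiveRoot ζ (Module.finrank ℚ F) := root_prim F
  by_contra hcon
  let L : ((F →+* ℂ) → ℝ) →ₗ[ℝ] ℂ :=
    { toFun := fun φ => ∑ k ∈ Finset.range (Module.finrank ℚ F),
        ζ ^ k * (φ (σ.comp ((γ ^ k : F ≃ₐ[ℚ] F) : F →+* F)) : ℂ)
      map_add' := by
        intro a b
        rw [← Finset.sum_add_distrib]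
        refine Finset.sum_congr rfl fun k _ => ?_
        rw [Pi.add_apply]
        push_cast
        ring
      map_smul' := by
        intro c a
        rw [Finset.smul_sum]
        refine Finset.sum_congr rfl fun k _ => ?_
        rw [Pi.smul_apply]
        simp only [smul_eq_mul, RingHom.id_apply, Complex.real_smul]
        push_cast
        ring }
  have hL : ∀ φ ∈ Par n F, L φ = 0 := by
    intro φ hφ
    have h1 : Val n F ≤ LinearMap.ker L := by
      unfold Val
      rw [Submodule.span_le]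
      rintro _ ⟨α, hα, rfl⟩
      show L _ = 0
      by_contra h2
      exact hcon ⟨σ, γ, hγ, α, hα, h2⟩
    exact h1 ((nonvanishing_iff hn F).1 hN hφ)
  have hinj : ∀ j < Module.finrank ℚ F, ∀ k < Module.finrank ℚ F,
      σ.comp ((γ ^ j : F ≃ₐ[ℚ] F) : F →+* F) = σ.comp ((γ ^ k : F ≃ₐ[ℚ] F) : F →+* F) → j = k := by
    intro j hj k hk hjk
    have h1 := comp_inj hjk
    rw [← orderOf_gen hγ] at hj hk
    exact pow_injOn_Iio_orderOf hj hk h1
  have hσ0 : σ.comp ((γ ^ 0 : F ≃ₐ[ℚ] F) : F →+* F) = σ := by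
    rw [pow_zero]
    rfl
  have hsingle : ∀ k < Module.finrank ℚ F, L (Pi.single (σ.comp ((γ ^ k : F ≃ₐ[ℚ] F) : F →+* F)) 1) = ζ ^ k := by
    intro k hk
    show ∑ j ∈ Finset.range (Module.finrank ℚ F), ζ ^ j * _ = _
    rw [Finset.sum_eq_single k]
    · rw [Pi.single_eq_same, Complex.ofReal_one, mul_one]
    · intro j hj hjk
      rw [Pi.single_eq_of_ne, Complex.ofReal_zero, mul_zero]
      intro h1
      exact hjk (hinj j (Finset.mem_range.1 hj) k hk h1)
    · intro h1
      exact absurd (Finset.mem_range.2 hk) h1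
  rcases Nat.even_or_odd n with he | ho
  · obtain ⟨c, hc1, hc⟩ := hpar.2 he
    obtain ⟨k, hk, hkc⟩ : ∃ k < Module.finrank ℚ F, γ ^ k = c := by
      have h2 := hγ.2 c
      rw [← mem_powers_iff_mem_zpowers, mem_powers_iff_mem_range_orderOf, Finset.mem_image] at h2
      obtain ⟨k, hk, hkc⟩ := h2
      rw [orderOf_gen hγ] at hk
      exact ⟨k, Finset.mem_range.1 hk, hkc⟩
    have hk0 : k ≠ 0 := by
      rintro rfl
      rw [pow_zero] at hkc
      exact hc1 hkc.symm
    have hconj : conj σ = σ.comp ((γ ^ k : F ≃ₐ[ℚ] F) : F →+* F) := by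
      rw [hkc, hc]
    have hne : conj σ ≠ σ := by
      intro h1
      rw [hconj, ← hσ0] at h1
      exact hk0 (hinj k hk 0 hm (by
        rw [hσ0] at h1 ⊢
        exact h1))
    set φ : (F →+* ℂ) → ℝ := Pi.single σ 1 - Pi.single (conj σ) 1 with hφ
    have hφP : φ ∈ Par n F := by
      intro τ
      rw [(Nat.Even.sub_odd hn he odd_one).neg_one_pow, neg_one_mul]
      show (Pi.single σ 1 : (F →+* ℂ) → ℝ) (conj τ) - (Pi.single (conj σ) 1 : (F →+* ℂ) → ℝ) (conj τ) =
        -((Pi.single σ 1 : (F →+* ℂ) → ℝ) τ - (Pi.single (conj σ) 1 : (F →+* ℂ) → ℝ) τ)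
      simp only [Pi.single_apply]
      have h1 : (conj τ = σ) = (τ = conj σ) := by
        refine propext ⟨fun h => ?_, fun h => ?_⟩
        · rw [← h, conj_conj]
        · rw [h, conj_conj]
      have h2 : (conj τ = conj σ) = (τ = σ) := by
        refine propext ⟨fun h => ?_, fun h => ?_⟩
        · rw [← conj_conj τ, h, conj_conj]
        · rw [h]
      simp only [h1, h2]
      ring
    have h1 := hL φ hφP
    have h2 : L φ = 1 - ζ ^ k := by
      rw [hφ, map_sub]
      have h3 := hsingle 0 hm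
      rw [hσ0, pow_zero] at h3
      rw [h3, hconj, hsingle k hk]
    rw [h2, sub_eq_zero] at h1
    have h3 := hprim.dvd_of_pow_eq_one k h1.symm
    exact absurd (Nat.le_of_dvd (Nat.pos_of_ne_zero hk0) h3) (not_le.2 hk)
  · have hreal := hpar.1 ho
    have hφP : (Pi.single σ 1 : (F →+* ℂ) → ℝ) ∈ Par n F := by
      intro τ
      rw [(Nat.Odd.sub_odd ho odd_one).neg_one_pow, one_mul, hreal τ]
    have h1 := hL _ hφP
    have h3 := hsingle 0 hm
    rw [hσ0, pow_zero] at h3
    rw [h3] at h1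
    exact one_ne_zero h1

/-- **Abelian fields.** -/
theorem abelian_iff (hn : 3 ≤ n) (hT : T.IsKnown n) :
    (∀ (F : Type) [Field F] [NumberField F], IsAbelianGalois ℚ F → Zagier n F) ↔
      ∀ (F : Type) [Field F] [NumberField F], (∃ γ : F ≃ₐ[ℚ] F, IsGenerator γ) → Parity n F →
        HasElement n F := by
  have hT' := hT.known' hn
  constructor
  · rintro h F _ _ ⟨γ, hγ⟩ hpar
    have hG := hγ.1
    have hc : IsCyclic (F ≃ₐ[ℚ] F) := ⟨γ, hγ.2⟩
    have hab : IsAbelianGalois ℚ F := IsAbelianGalois.of_isCyclic ℚ F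
    exact element_of_nonvanishing (by omega) hpar hγ (nonvanishing_of_zagier (by omega) (h F hab))
  · intro h
    refine induct hT' (by omega) (fun F _ _ => IsAbelianGalois ℚ F) (fun F _ _ hF E => ?_)
      (fun F _ _ hF hE hred => ?_)
    · have := hF
      have h1 : @IsAbelianGalois ℚ E _ _ (IntermediateField.algebra' E) := inferInstance
      convert h1
      exact Subsingleton.elim _ _
    · have hcyc : IsCyclic (⊤ : Subgroup (F ≃ₐ[ℚ] F)) :=
        hred.cyclic ⊤ fun a _ b _ => hF.toIsMulCommutative.is_comm.comm a b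
      obtain ⟨⟨γ, hmem⟩, hγ⟩ := hcyc.exists_generator
      have hγ' : IsGenerator γ := by
        refine ⟨hF.toIsGalois, fun g => ?_⟩
        obtain ⟨k, hk⟩ := hγ ⟨g, Subgroup.mem_top g⟩
        exact ⟨k, congrArg Subtype.val hk⟩
      exact zagier_of_element hT' hE (h F ⟨γ, hγ'⟩
        ⟨fun ho => hred.galois_odd hF.toIsGalois ho, fun he => hred.galois_even hF.toIsGalois he⟩)

end

end Pool.Agent.W2helper89.ZS
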