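import Pool.Agent.W2helper89.ZS.Span

/-!
# Fields `F` with an abelian group which acts simply transitively on a fibre of the embeddings
-/

set_option autoImplicit false

namespace Pool.Agent.W2helper89.ZS

open GonP NumberField Pool.Agent.Q219.ZG Pool.Agent.Q219.ZN


section

variable {F L : Type} [Field F] [NumberField F] [Field L] [NumberField L] [Algebra F L]

lemma mem_fixedIn {B : Subgroup (L ≃ₐ[ℚ] L)} {x : F} :
    x ∈ fixedIn F B ↔ ∀ b ∈ B, b (algebraMap F L x) = algebraMap F L x := Iff.rfl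

/-- the products `b h` -/
def prodGroup (B H : Subgroup (L ≃ₐ[ℚ] L)) (hn : ∀ h ∈ H, ∀ b ∈ B, h * b * h⁻¹ ∈ B) :
    Subgroup (L ≃ₐ[ℚ] L) where
  carrier := {k | ∃ b ∈ B, ∃ h ∈ H, k = b * h}
  one_mem' := ⟨1, B.one_mem, 1, H.one_mem, (mul_one _).symm⟩
  mul_mem' := by
    rintro _ _ ⟨b, hb, h, hh, rfl⟩ ⟨b', hb', h', hh', rfl⟩
    refine ⟨b * (h * b' * h⁻¹), B.mul_mem hb (hn h hh b' hb'), h * h', H.mul_mem hh hh', ?_⟩
    group
  inv_mem' := by
    rintro _ ⟨b, hb, h, hh, rfl⟩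
    refine ⟨h⁻¹ * b⁻¹ * h⁻¹⁻¹, hn h⁻¹ (H.inv_mem hh) b⁻¹ (B.inv_mem hb), h⁻¹, H.inv_mem hh, ?_⟩
    group

/-- the embedding `Λ x` restricted to `F` -/
noncomputable def emb (Λ : L →+* ℂ) (x : L ≃ₐ[ℚ] L) : F →+* ℂ :=
  (Λ.comp (x : L →+* L)).comp (algebraMap F L)

lemma emb_apply (Λ : L →+* ℂ) (x : L ≃ₐ[ℚ] L) (z : F) : emb Λ x z = Λ (x (algebraMap F L z)) := rfl

/-- the embeddings with the same restriction to the field fixed by `B` -/
lemma exists_emb (hgal : IsGalois F L) {B : Subgroup (L ≃ₐ[ℚ] L)}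
    (hn : ∀ h ∈ autOver F L, ∀ b ∈ B, h * b * h⁻¹ ∈ B) (Λ : L →+* ℂ) (x : L ≃ₐ[ℚ] L) (σ : F →+* ℂ)
    (hσ : σ.comp (fixedIn F B).val.toRingHom = (emb Λ x).comp (fixedIn F B).val.toRingHom) :
    ∃ b ∈ B, σ = emb Λ (x * b) := by
  set K := prodGroup B (autOver F L) hn with hK
  have hBK : B ≤ K := fun b hb => ⟨b, hb, 1, (autOver F L).one_mem, (mul_one _).symm⟩
  have hHK : autOver F L ≤ K := fun h hh => ⟨1, B.one_mem, h, hh, (one_mul _).symm⟩
  have hgK : IsGalois (IntermediateField.fixedField K) L := IsGalois.of_fixed_field L K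
  have hlift : ∀ z : F, ComplexEmbedding.lift L σ (algebraMap F L z) = σ z := fun z =>
    RingHom.congr_fun (ComplexEmbedding.lift_comp_algebraMap L σ) z
  have h1 : (Λ.comp (x : L →+* L)).comp (algebraMap (IntermediateField.fixedField K) L) =
      (ComplexEmbedding.lift L σ).comp (algebraMap (IntermediateField.fixedField K) L) := by
    refine RingHom.ext fun z => ?_
    have hz : ∀ k ∈ K, k (z : L) = z := fun k hk => z.2 ⟨k, hk⟩
    have h2 : (z : L) ∈ Set.range (algebraMap F L) := by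
      rw [IsGalois.mem_range_algebraMap_iff_fixed]
      intro f
      have h3 : (f.restrictScalars ℚ : L ≃ₐ[ℚ] L) ∈ autOver F L := fun y => f.commutes y
      exact hz _ (hHK h3)
    obtain ⟨y, hy⟩ := h2
    have hy' : y ∈ fixedIn F B := by
      intro b hb
      rw [hy]
      exact hz b (hBK hb)
    have h4 := RingHom.congr_fun hσ ⟨y, hy'⟩
    have h5 : σ y = Λ (x (algebraMap F L y)) := h4
    show Λ (x (z : L)) = ComplexEmbedding.lift L σ (z : L)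
    rw [← hy, hlift, h5]
  obtain ⟨g, hg⟩ := NumberField.ComplexEmbedding.exists_comp_symm_eq_of_comp_eq
    (k := IntermediateField.fixedField K) _ _ h1
  have h6 : (g.symm.restrictScalars ℚ : L ≃ₐ[ℚ] L) ∈ K := by
    have h2 : (g.symm.restrictScalars ℚ : L ≃ₐ[ℚ] L) ∈ (IntermediateField.fixedField K).fixingSubgroup := by
      rw [IntermediateField.mem_fixingSubgroup_iff]
      intro z hz
      exact g.symm.commutes ⟨z, hz⟩
    rwa [IntermediateField.fixingSubgroup_fixedField] at h2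
  obtain ⟨b, hb, h, hh, hbh⟩ := h6
  refine ⟨b, hb, RingHom.ext fun y => ?_⟩
  have h7 : σ y = Λ (x ((g.symm.restrictScalars ℚ : L ≃ₐ[ℚ] L) (algebraMap F L y))) := by
    rw [← hlift y, ← hg]
    rfl
  rw [h7, hbh, emb_apply]
  show Λ (x (b (h (algebraMap F L y)))) = Λ (x (b (algebraMap F L y)))
  rw [hh y]

open Classical in
/-- the sums over the cosets of `B` -/
lemma coset_sum (hgal : IsGalois F L) {A B : Subgroup (L ≃ₐ[ℚ] L)} (hBA : B ≤ A)
    (hn : ∀ h ∈ autOver F L, ∀ b ∈ B, h * b * h⁻¹ ∈ B) (hinf : ∀ a ∈ A, a ∈ autOver F L → a = 1)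
    (Λ : L →+* ℂ) (x : A) (c : (F →+* ℂ) → ℂ)
    (h : ∀ τ : fixedIn F B →+* ℂ,
      ∑ σ : F →+* ℂ, (if σ.comp (fixedIn F B).val.toRingHom = τ then c σ else 0) = 0) :
    ∑ b : A, (if (b : L ≃ₐ[ℚ] L) ∈ B then c (emb Λ ((x * b : A) : L ≃ₐ[ℚ] L)) else 0) = 0 := by
  have h0 := h ((emb Λ (x : L ≃ₐ[ℚ] L)).comp (fixedIn F B).val.toRingHom)
  rw [← Finset.sum_filter] at h0 ⊢
  refine Eq.trans ?_ h0
  refine Finset.sum_bij (fun b _ => emb Λ ((x * b : A) : L ≃ₐ[ℚ] L)) ?_ ?_ ?_ (fun _ _ => rfl)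
  · intro b hb
    rw [Finset.mem_filter] at hb ⊢
    refine ⟨Finset.mem_univ _, RingHom.ext fun z => ?_⟩
    show Λ (((x : L ≃ₐ[ℚ] L) * (b : L ≃ₐ[ℚ] L)) (algebraMap F L z)) = Λ ((x : L ≃ₐ[ℚ] L) (algebraMap F L z))
    show Λ ((x : L ≃ₐ[ℚ] L) ((b : L ≃ₐ[ℚ] L) (algebraMap F L z))) = _
    rw [z.2 _ hb.2]
  · intro b hb b' hb' hbb
    have h1 : ∀ z : F, (b : L ≃ₐ[ℚ] L) (algebraMap F L z) = (b' : L ≃ₐ[ℚ] L) (algebraMap F L z) := by
      intro z
      have h2 : Λ ((x : L ≃ₐ[ℚ] L) ((b : L ≃ₐ[ℚ] L) (algebraMap F L z))) =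
          Λ ((x : L ≃ₐ[ℚ] L) ((b' : L ≃ₐ[ℚ] L) (algebraMap F L z))) := RingHom.congr_fun hbb z
      exact (x : L ≃ₐ[ℚ] L).injective (Λ.injective h2)
    have h3 : ((b' : L ≃ₐ[ℚ] L)⁻¹ * (b : L ≃ₐ[ℚ] L)) = 1 := by
      refine hinf _ (A.mul_mem (A.inv_mem b'.2) b.2) fun z => ?_
      show (b' : L ≃ₐ[ℚ] L)⁻¹ ((b : L ≃ₐ[ℚ] L) (algebraMap F L z)) = _
      rw [h1]
      show ((b' : L ≃ₐ[ℚ] L)⁻¹ * (b' : L ≃ₐ[ℚ] L)) (algebraMap F L z) = _
      rw [inv_mul_cancel]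
      rfl
    exact Subtype.ext (inv_mul_eq_one.1 h3).symm
  · intro σ hσ
    rw [Finset.mem_filter] at hσ
    obtain ⟨b, hb, hσb⟩ := exists_emb hgal hn Λ (x : L ≃ₐ[ℚ] L) σ hσ.2
    refine ⟨⟨b, hBA hb⟩, ?_, ?_⟩
    · rw [Finset.mem_filter]
      exact ⟨Finset.mem_univ _, hb⟩
    · exact hσb.symm

open Classical in
/-- the vanishing of one character sum -/
lemma char_sum {A B : Subgroup (L ≃ₐ[ℚ] L)} (χ : A →* ℂ)
    (hχ : ∀ b : A, (b : L ≃ₐ[ℚ] L) ∈ B → χ b = 1) (f : A → ℂ)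
    (h : ∀ x : A, ∑ b : A, (if (b : L ≃ₐ[ℚ] L) ∈ B then f (x * b) else 0) = 0) :
    ∑ x : A, f x * χ x = 0 := by
  have h1 : ∀ b : A, (b : L ≃ₐ[ℚ] L) ∈ B → ∑ x : A, f (x * b) * χ x = ∑ x : A, f x * χ x := by
    intro b hb
    refine Fintype.sum_equiv (Equiv.mulRight b) _ _ fun x => ?_
    show f (x * b) * χ x = f (x * b) * χ (x * b)
    rw [map_mul, hχ b hb, mul_one]
  have h2 : ∑ b : A, (if (b : L ≃ₐ[ℚ] L) ∈ B then ∑ x : A, f (x * b) * χ x else 0) = 0 := by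
    have h3 : ∀ b : A, (if (b : L ≃ₐ[ℚ] L) ∈ B then ∑ x : A, f (x * b) * χ x else 0) =
        ∑ x : A, (if (b : L ≃ₐ[ℚ] L) ∈ B then f (x * b) else 0) * χ x := by
      intro b
      split_ifs with hb
      · rfl
      · exact (Finset.sum_eq_zero fun x _ => zero_mul _).symm
    rw [Finset.sum_congr rfl fun b _ => h3 b, Finset.sum_comm]
    refine Finset.sum_eq_zero fun x _ => ?_
    rw [← Finset.sum_mul, h x, zero_mul]
  have h4 : ∑ b : A, (if (b : L ≃ₐ[ℚ] L) ∈ B then ∑ x : A, f (x * b) * χ x else 0) =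
      ∑ b : A, (if (b : L ≃ₐ[ℚ] L) ∈ B then (1 : ℂ) else 0) * ∑ x : A, f x * χ x := by
    refine Finset.sum_congr rfl fun b _ => ?_
    split_ifs with hb
    · rw [h1 b hb, one_mul]
    · rw [zero_mul]
  rw [h4, ← Finset.sum_mul] at h2
  refine (mul_eq_zero.1 h2).resolve_left ?_
  rw [Finset.sum_boole]
  have h5 : (1 : A) ∈ Finset.filter (fun b : A => (b : L ≃ₐ[ℚ] L) ∈ B) Finset.univ := by
    rw [Finset.mem_filter]
    exact ⟨Finset.mem_univ _, B.one_mem⟩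
  have h6 : 0 < (Finset.filter (fun b : A => (b : L ≃ₐ[ℚ] L) ∈ B) Finset.univ).card :=
    Finset.card_pos.2 ⟨1, h5⟩
  exact_mod_cast h6.ne'

open Classical in
/-- a function on a finite abelian group whose character sums all vanish -/
lemma eq_zero_of_char {A : Type} [CommGroup A] [Fintype A] (f : A → ℂ)
    (h : ∀ χ : A →* ℂ, ∑ x : A, f x * χ x = 0) (x0 : A) : f x0 = 0 := by
  have h1 : ∀ ψ : AddChar (Additive A) ℂ, ∑ x : A, f x * ψ (Additive.ofMul x) = 0 := by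
    intro ψ
    let χ : A →* ℂ :=
      { toFun := fun x => ψ (Additive.ofMul x)
        map_one' := ψ.map_zero_eq_one
        map_mul' := fun x y => ψ.map_add_eq_mul _ _ }
    exact h χ
  have h2 : ∑ ψ : AddChar (Additive A) ℂ, ψ (Additive.ofMul x0⁻¹) *
      ∑ x : A, f x * ψ (Additive.ofMul x) = 0 :=
    Finset.sum_eq_zero fun ψ _ => by rw [h1, mul_zero]
  have h3 : ∑ ψ : AddChar (Additive A) ℂ, ψ (Additive.ofMul x0⁻¹) *
      ∑ x : A, f x * ψ (Additive.ofMul x) =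
      ∑ x : A, f x * ∑ ψ : AddChar (Additive A) ℂ, ψ (Additive.ofMul (x0⁻¹ * x)) := by
    simp only [Finset.mul_sum]
    rw [Finset.sum_comm]
    refine Finset.sum_congr rfl fun x _ => Finset.sum_congr rfl fun ψ _ => ?_
    rw [ofMul_mul, ψ.map_add_eq_mul]
    ring
  rw [h3] at h2
  rw [Finset.sum_eq_single x0] at h2
  · rw [AddChar.sum_apply_eq_ite, inv_mul_cancel, ofMul_one, if_pos rfl] at h2
    refine (mul_eq_zero.1 h2).resolve_right ?_
    have : 0 < Fintype.card (Additive A) := Fintype.card_pos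
    exact_mod_cast this.ne'
  · intro x _ hx
    rw [AddChar.sum_apply_eq_ite, if_neg, mul_zero]
    intro h4
    refine hx ?_
    have h5 : x0⁻¹ * x = 1 := h4
    exact (inv_mul_eq_one.1 h5).symm
  · intro h4
    exact absurd (Finset.mem_univ _) h4

open Classical in
/-- **The vanishing of the function.** -/
theorem affine_zero (hgal : IsGalois F L) {A : Subgroup (L ≃ₐ[ℚ] L)}
    (hcomm : ∀ a ∈ A, ∀ b ∈ A, a * b = b * a) (hinf : ∀ a ∈ A, a ∈ autOver F L → a = 1)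
    (c : (F →+* ℂ) → ℂ)
    (h : ∀ χ : A →* ℂ, ∃ B : Subgroup (L ≃ₐ[ℚ] L), B ≤ A ∧
      (∀ h ∈ autOver F L, ∀ b ∈ B, h * b * h⁻¹ ∈ B) ∧ (∀ b : A, (b : L ≃ₐ[ℚ] L) ∈ B → χ b = 1) ∧
      ∀ τ : fixedIn F B →+* ℂ,
        ∑ σ : F →+* ℂ, (if σ.comp (fixedIn F B).val.toRingHom = τ then c σ else 0) = 0) : c = 0 := by
  letI : CommGroup A := { (inferInstance : Group A) with
    mul_comm := fun a b => Subtype.ext (hcomm a a.2 b b.2) }
  funext σ
  set Λ := ComplexEmbedding.lift L σ with hΛ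
  have h1 := eq_zero_of_char (fun x : A => c (emb Λ (x : L ≃ₐ[ℚ] L))) (fun χ => by
    obtain ⟨B, hBA, hn, hχ, hτ⟩ := h χ
    exact char_sum χ hχ _ fun x => coset_sum hgal hBA hn hinf Λ x c hτ) 1
  have h2 : emb Λ ((1 : A) : L ≃ₐ[ℚ] L) = σ := by
    refine RingHom.ext fun z => ?_
    exact RingHom.congr_fun (ComplexEmbedding.lift_comp_algebraMap L σ) z
  rw [← h2]
  exact h1

end

end Pool.Agent.W2helper89.ZS
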