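import Pool.Agent.W2helper89.ZS.One

/-!
# Classes of fields with irreducible new functions
-/

set_option autoImplicit false

namespace Pool.Agent.W2helper89.ZS

open GonP NumberField Pool.Agent.Q219.ZG Pool.Agent.Q219.ZN

section

variable {T : KTheory} {n : ℕ}

/-- one field -/
theorem zagier_iff_one (hn : 3 ≤ n) (hT : T.IsKnown n) {F : Type} [Field F] [NumberField F]
    (hirr : IrreducibleNew n F) (h : ∀ E : IntermediateField ℚ F, E ≠ ⊤ → Zagier n E) :
    Zagier n F ↔ (HasNew n F → HasOne n F) := by
  constructor
  · intro hF hnew
    exact one_of_nonvanishing (by omega) (nonvanishing_of_zagier (by omega) hF) hnew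
  · intro hone
    by_cases hnew : HasNew n F
    · exact zagier_of_one (by omega) (hT.known' hn) hirr h (hone hnew)
    · refine zagier_of_nonvanishing (hT.known' hn) ?_
      by_contra hN
      exact hnew (hasNew_of_not hn (fun E hE => nonvanishing_of_zagier (by omega) (h E hE)) hN)

/-- classes of fields -/
theorem class_one (hn : 3 ≤ n) (hT : T.IsKnown n) (P : ∀ (F : Type) [Field F] [NumberField F], Prop)
    (hP : ∀ (F : Type) [Field F] [NumberField F], P F → ∀ E : IntermediateField ℚ F, P E)
    (hirr : ∀ (F : Type) [Field F] [NumberField F], P F → HasNew n F → Remaining n F →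
      IrreducibleNew n F) :
    (∀ (F : Type) [Field F] [NumberField F], P F → Zagier n F) ↔
      ∀ (F : Type) [Field F] [NumberField F], P F → HasNew n F → Remaining n F → HasOne n F := by
  constructor
  · intro h F _ _ hF hnew _
    exact one_of_nonvanishing (by omega) (nonvanishing_of_zagier (by omega) (h F hF)) hnew
  · intro h
    suffices H : ∀ (d : ℕ) (F : Type) [Field F] [NumberField F], Module.finrank ℚ F ≤ d → P F →
        Zagier n F from fun F _ _ hF => H _ F le_rfl hF
    intro d
    induction d with
    | zero =>
      intro F _ _ hd
      have : 0 < Module.finrank ℚ F := Module.finrank_pos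
      omega
    | succ d ih =>
      intro F _ _ hd hF
      have h1 : ∀ E : IntermediateField ℚ F, E ≠ ⊤ → Zagier n E := by
        intro E hE
        refine ih E ?_ (hP F hF E)
        have h2 : Module.finrank ℚ E < Module.finrank ℚ F := by
          refine Submodule.finrank_lt (s := Subalgebra.toSubmodule E.toSubalgebra) fun htop => hE ?_
          rw [eq_top_iff]
          intro x _
          have : x ∈ Subalgebra.toSubmodule E.toSubalgebra := by
            rw [htop]
            exact Submodule.mem_top
          exact this
        omega
      by_contra hcon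
      have h2 : ¬ Nonvanishing n F := fun hN => hcon (zagier_of_nonvanishing (hT.known' hn) hN)
      have h3 : ∀ E : IntermediateField ℚ F, E ≠ ⊤ → Nonvanishing n E :=
        fun E hE => nonvanishing_of_zagier (by omega) (h1 E hE)
      have h4 := hasNew_of_not hn h3 h2
      have h5 := remaining_of_not hn h3 h2
      exact hcon ((zagier_iff_one hn hT (hirr F hF h4 h5) h1).2 fun _ => h F hF h4 h5)

end

end Pool.Agent.W2helper89.ZS
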