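import Pool.Agent.W2helper89.ZS.Affine

/-!
# Consequences
-/

set_option autoImplicit false

namespace Pool.Agent.W2helper89.ZS

open GonP NumberField Pool.Agent.Q219.ZG Pool.Agent.Q219.ZN

section

variable {n : ℕ} {F : Type} [Field F] [NumberField F]

/-- **Fields with an abelian group which acts simply transitively on a fibre of the embeddings.** -/
theorem nonvanishing_of_affine (hn : 3 ≤ n) {L : Type} [Field L] [NumberField L] [Algebra F L]
    (hgal : IsGalois F L) {A : Subgroup (L ≃ₐ[ℚ] L)}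
    (hcomm : ∀ a ∈ A, ∀ b ∈ A, a * b = b * a) (hinf : ∀ a ∈ A, a ∈ autOver F L → a = 1)
    (h : ∀ χ : A →* ℂ, ∃ B : Subgroup (L ≃ₐ[ℚ] L), B ≤ A ∧
      (∀ h ∈ autOver F L, ∀ b ∈ B, h * b * h⁻¹ ∈ B) ∧ (∀ b : A, (b : L ≃ₐ[ℚ] L) ∈ B → χ b = 1) ∧
      Nonvanishing n (fixedIn F B)) : Nonvanishing n F := by
  classical
  by_contra hF
  have h1 : ¬ Par n F ≤ Val n F := fun h2 => hF ((nonvanishing_iff (by omega) F).2 h2)
  obtain ⟨b, hb, hb0, hbW⟩ := exists_orth h1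
  refine hb0 ?_
  have h2 : (fun σ => ((b σ : ℝ) : ℂ)) = 0 := by
    refine affine_zero hgal hcomm hinf _ fun χ => ?_
    obtain ⟨B, hBA, hn', hχ, hN⟩ := h χ
    refine ⟨B, hBA, hn', hχ, fun τ => cast_fibre (fibre_sum hb _ (fun ψ hψ => ?_) τ)⟩
    refine hbW _ ?_ (pull_Par _ hψ)
    exact pull_Val hn _ ((nonvanishing_iff (by omega) _).1 hN hψ)
  funext σ
  exact Complex.ofReal_eq_zero.1 (congrFun h2 σ)

/-- a proper subfield -/
lemma fixedIn_ne_top {L : Type} [Field L] [NumberField L] [Algebra F L]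
    {A B : Subgroup (L ≃ₐ[ℚ] L)} (hinf : ∀ a ∈ A, a ∈ autOver F L → a = 1) (hBA : B ≤ A)
    (hB : B ≠ ⊥) : fixedIn F B ≠ ⊤ := by
  intro htop
  refine hB ((Subgroup.eq_bot_iff_forall _).2 fun b hb => hinf b (hBA hb) fun x => ?_)
  have hx : x ∈ fixedIn F B := by
    rw [htop]
    exact IntermediateField.mem_top
  exact hx b hb

/-- **A character whose kernel contains no invariant subgroup.** -/
theorem exists_character (h : HasNew n F) {L : Type} [Field L] [NumberField L] [Algebra F L]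
    (hgal : IsGalois F L) {A : Subgroup (L ≃ₐ[ℚ] L)}
    (hcomm : ∀ a ∈ A, ∀ b ∈ A, a * b = b * a) (hinf : ∀ a ∈ A, a ∈ autOver F L → a = 1) :
    ∃ χ : A →* ℂ, ∀ B : Subgroup (L ≃ₐ[ℚ] L), B ≤ A →
      (∀ h ∈ autOver F L, ∀ b ∈ B, h * b * h⁻¹ ∈ B) → (∀ b : A, (b : L ≃ₐ[ℚ] L) ∈ B → χ b = 1) →
      B = ⊥ := by
  classical
  by_contra hcon
  obtain ⟨a, ha0, -, ha⟩ := h
  refine ha0 ?_
  have h2 : (fun σ => ((a σ : ℚ) : ℂ)) = 0 := by
    refine affine_zero hgal hcomm hinf _ fun χ => ?_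
    by_contra hχ
    refine hcon ⟨χ, fun B hBA hn' hχB => ?_⟩
    by_contra hB
    exact hχ ⟨B, hBA, hn', hχB, fun τ => cast_fibreQ (ha _ (fixedIn_ne_top hinf hBA hB) τ)⟩
  funext σ
  exact Rat.cast_eq_zero.1 (congrFun h2 σ)

/-- **The cyclic case.** -/
theorem isCyclic_of_new (h : HasNew n F) {L : Type} [Field L] [NumberField L] [Algebra F L]
    (hgal : IsGalois F L) {A : Subgroup (L ≃ₐ[ℚ] L)}
    (hcomm : ∀ a ∈ A, ∀ b ∈ A, a * b = b * a) (hinf : ∀ a ∈ A, a ∈ autOver F L → a = 1)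
    (hpow : ∀ h ∈ autOver F L, ∀ a ∈ A, h * a * h⁻¹ ∈ Subgroup.zpowers a) : IsCyclic A := by
  obtain ⟨χ, hχ⟩ := exists_character h hgal hcomm hinf
  refine isCyclic_of_injective_ringHom χ ?_
  rw [injective_iff_map_eq_one]
  intro a ha
  have h1 := hχ (Subgroup.zpowers (a : L ≃ₐ[ℚ] L)) (by
    rw [Subgroup.zpowers_le]
    exact a.2) (by
    rintro h hh _ ⟨k, rfl⟩
    have h2 := hpow h hh a a.2
    have h3 : h * ((a : L ≃ₐ[ℚ] L)) ^ k * h⁻¹ = (h * (a : L ≃ₐ[ℚ] L) * h⁻¹) ^ k := by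
      rw [conj_zpow]
    show h * ((a : L ≃ₐ[ℚ] L)) ^ k * h⁻¹ ∈ _
    rw [h3]
    exact Subgroup.zpow_mem _ h2 k) (by
    rintro b ⟨k, hk⟩
    have h2 : b = a ^ k := Subtype.ext hk.symm
    have h4 : χ.toHomUnits a = 1 := Units.ext ha
    have h5 : ((χ.toHomUnits (a ^ k) : ℂˣ) : ℂ) = 1 := by
      rw [map_zpow, h4, one_zpow]
      rfl
    rw [h2]
    exact h5)
  have h2 : (a : L ≃ₐ[ℚ] L) = 1 := by
    rw [Subgroup.zpowers_eq_bot] at h1
    exact h1
  exact Subtype.ext h2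

/-- **Primitive elements in multiplicative sets.** -/
theorem exists_generator (h : HasNew n F) (E0 : IntermediateField ℚ F) (M : Submonoid F)
    (hM : E0 ⊔ IntermediateField.adjoin ℚ (M : Set F) = ⊤) :
    ∃ r ∈ M, E0 ⊔ IntermediateField.adjoin ℚ {r} = ⊤ := by
  by_contra hcon
  refine span_ne_top h ?_
  rw [eq_top_iff, ← span_monoid E0 M hM]
  unfold spanFields
  refine Submodule.span_mono ?_
  rintro x ⟨E, ⟨r, hr, rfl⟩, hx⟩
  refine ⟨_, fun htop => hcon ⟨r, hr, htop⟩, hx⟩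

/-- **Multiplicative sets.** -/
theorem nonvanishing_of_monoid (hn : 3 ≤ n) (E0 : IntermediateField ℚ F) (M : Submonoid F)
    (hM : E0 ⊔ IntermediateField.adjoin ℚ (M : Set F) = ⊤)
    (h : ∀ r ∈ M, Nonvanishing n (E0 ⊔ IntermediateField.adjoin ℚ {r} : IntermediateField ℚ F)) :
    Nonvanishing n F := by
  refine nonvanishing_of_span hn (span_monoid E0 M hM) ?_
  rintro E ⟨r, hr, rfl⟩
  exact h r hr

/-- `n` odd: over each proper subfield there are two embeddings which are not complex conjugate. -/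
theorem exists_two (hn : Odd n) (h : HasNew n F) (E : IntermediateField ℚ F) (hE : E ≠ ⊤) :
    ∃ σ σ' : F →+* ℂ, σ.comp E.val.toRingHom = σ'.comp E.val.toRingHom ∧ σ' ≠ σ ∧ σ' ≠ conj σ := by
  classical
  by_contra hcon
  obtain ⟨a, ha0, hpar, ha⟩ := h
  refine ha0 (funext fun σ => ?_)
  have h1 : ∀ σ' : F →+* ℂ, σ'.comp E.val.toRingHom = σ.comp E.val.toRingHom → a σ' = a σ := by
    intro σ' hσ'
    by_cases h2 : σ' = σ
    · rw [h2]
    · by_cases h3 : σ' = conj σ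
      · rw [h3, hpar, (Nat.Odd.sub_odd hn odd_one).neg_one_pow, one_mul]
      · exact absurd ⟨σ, σ', hσ'.symm, h2, h3⟩ hcon
  have h2 := ha E hE (σ.comp E.val.toRingHom)
  rw [← Finset.sum_filter, Finset.sum_congr rfl (g := fun _ => a σ) (fun σ' hσ' => h1 σ'
    (Finset.mem_filter.1 hσ').2), Finset.sum_const, nsmul_eq_mul] at h2
  refine (mul_eq_zero.1 h2).resolve_left ?_
  have h3 : 0 < (Finset.filter (fun σ' : F →+* ℂ => σ'.comp E.val.toRingHom =
      σ.comp E.val.toRingHom) Finset.univ).card :=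
    Finset.card_pos.2 ⟨σ, Finset.mem_filter.2 ⟨Finset.mem_univ _, rfl⟩⟩
  exact_mod_cast h3.ne'

end

end Pool.Agent.W2helper89.ZS
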