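import Pool.Agent.Q219.ZN.Defs

/-!
# Functions on the embeddings of a number field which do not come from proper subfields
-/

set_option autoImplicit false

namespace Pool.Agent.W2helper89.ZS

open GonP NumberField Pool.Agent.Q219.ZG Pool.Agent.Q219.ZN

open Classical in
/-- `a` is a rational function on the embeddings of `F` into `ℂ` with the parity `(-1)^(n-1)` under
complex conjugation, and for every proper subfield `E` and every embedding `τ` of `E` the sum of the
numbers `a σ` over the embeddings `σ` of `F` which extend `τ` is zero. -/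
def IsNew (n : ℕ) (F : Type) [Field F] [NumberField F] (a : (F →+* ℂ) → ℚ) : Prop :=
  (∀ σ, a (conj σ) = (-1) ^ (n - 1) * a σ) ∧
    ∀ E : IntermediateField ℚ F, E ≠ ⊤ → ∀ τ : E →+* ℂ,
      ∑ σ : F →+* ℂ, (if σ.comp E.val.toRingHom = τ then a σ else 0) = 0

/-- There is such a function `≠ 0`. -/
def HasNew (n : ℕ) (F : Type) [Field F] [NumberField F] : Prop :=
  ∃ a : (F →+* ℂ) → ℚ, a ≠ 0 ∧ IsNew n F a

/-- The `ℚ`-linear span of the fields `E ∈ S` in `F`. -/
def spanFields {F : Type} [Field F] [NumberField F] (S : Set (IntermediateField ℚ F)) :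
    Submodule ℚ F := Submodule.span ℚ {x | ∃ E ∈ S, x ∈ E}

open Classical in
/-- Every real function `b ≠ 0` on the embeddings with the parity `(-1)^(n-1)` whose sums over the extensions
of the embeddings of the proper subfields vanish is detected by the polylogarithm: there is an element `α` of
`ker δ_n` with `Σ_σ b(σ) L_n(σ(α)) ≠ 0`. -/
def Detects (n : ℕ) (F : Type) [Field F] [NumberField F] : Prop :=
  ∀ b : (F →+* ℂ) → ℝ, b ≠ 0 → (∀ σ, b (conj σ) = (-1) ^ (n - 1) * b σ) →
    (∀ E : IntermediateField ℚ F, E ≠ ⊤ → ∀ τ : E →+* ℂ,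
      ∑ σ : F →+* ℂ, (if σ.comp E.val.toRingHom = τ then b σ else 0) = 0) →
    ∃ α ∈ Ker n F, ∑ σ : F →+* ℂ, b σ * value n σ α ≠ 0

/-- The rational functions `IsNew n F` form an irreducible representation of the automorphism group of `F` (or
the zero space): a subspace which is invariant under the automorphisms is zero or contains all of them. -/
def IrreducibleNew (n : ℕ) (F : Type) [Field F] [NumberField F] : Prop :=
  ∀ N : Submodule ℚ ((F →+* ℂ) → ℚ), (∀ a ∈ N, IsNew n F a) →
    (∀ g : F ≃ₐ[ℚ] F, ∀ a ∈ N, (fun σ : F →+* ℂ => a (σ.comp (g : F →+* F))) ∈ N) →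
      N = ⊥ ∨ ∀ a, IsNew n F a → a ∈ N

/-- There are an element `α` of `ker δ_n` and a rational function `a` on the embeddings (with the properties
`IsNew n F`) such that `Σ_σ a(σ) L_n(σ(α)) ≠ 0`. -/
def HasOne (n : ℕ) (F : Type) [Field F] [NumberField F] : Prop :=
  ∃ a, IsNew n F a ∧ ∃ α ∈ Ker n F, ∑ σ : F →+* ℂ, (a σ : ℝ) * value n σ α ≠ 0

section

variable (F L : Type) [Field F] [NumberField F] [Field L] [NumberField L] [Algebra F L]

/-- The automorphisms of `L` which fix the elements of `F`. -/
def autOver : Subgroup (L ≃ₐ[ℚ] L) where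
  carrier := {h | ∀ x : F, h (algebraMap F L x) = algebraMap F L x}
  one_mem' := fun _ => rfl
  mul_mem' := by
    intro a b ha hb x
    show a (b (algebraMap F L x)) = _
    rw [hb, ha]
  inv_mem' := by
    intro a ha x
    show a⁻¹ (algebraMap F L x) = _
    conv_lhs => rw [← ha x]
    show (a⁻¹ * a) (algebraMap F L x) = _
    rw [inv_mul_cancel]
    rfl

variable {L}

/-- The subfield of the elements of `F` which are fixed by the automorphisms in `B`. -/
def fixedIn (B : Subgroup (L ≃ₐ[ℚ] L)) : IntermediateField ℚ F where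
  carrier := {x | ∀ b ∈ B, b (algebraMap F L x) = algebraMap F L x}
  mul_mem' := by
    intro x y hx hy b hb
    rw [map_mul, map_mul, hx b hb, hy b hb]
  add_mem' := by
    intro x y hx hy b hb
    rw [map_add, map_add, hx b hb, hy b hb]
  algebraMap_mem' := by
    intro q b _
    show b (algebraMap F L (q : F)) = algebraMap F L (q : F)
    rw [map_ratCast, map_ratCast]
  inv_mem' := by
    intro x hx b hb
    rw [map_inv₀, map_inv₀, hx b hb]

/-- The subgroup `B` of `A` is mapped into itself by the conjugations with the automorphisms of `L` over `F`,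
and the character `χ` of `A` is trivial on `B`. -/
def IsKilled {A : Subgroup (L ≃ₐ[ℚ] L)} (χ : A →* ℂ) (B : Subgroup (L ≃ₐ[ℚ] L)) : Prop :=
  B ≤ A ∧ (∀ h ∈ autOver F L, ∀ b ∈ B, h * b * h⁻¹ ∈ B) ∧ ∀ b : A, (b : L ≃ₐ[ℚ] L) ∈ B → χ b = 1

/-- The group `A` is abelian, and only its neutral element fixes all the elements of `F`. (If `L` is a Galois
extension of `F` and `A` is normalised by `Gal(L/F)`, then `[F : F^A]` is the order of `A`.) -/
def IsFree (A : Subgroup (L ≃ₐ[ℚ] L)) : Prop :=
  (∀ a ∈ A, ∀ b ∈ A, a * b = b * a) ∧ ∀ a ∈ A, a ∈ autOver F L → a = 1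

end

/-! ### arbitrary sets of subfields -/

open Classical in
/-- For a field `K` of coefficients (`ℚ` or `ℝ`): the function `b` on the embeddings of `F` has the parity
`(-1)^(n-1)` under complex conjugation, and for every subfield `E` in `S` and every embedding `τ` of `E` the sum
of the numbers `b σ` over the embeddings `σ` of `F` which extend `τ` is zero. -/
def IsNewFor (K : Type) [Field K] (n : ℕ) (F : Type) [Field F] [NumberField F]
    (S : Set (IntermediateField ℚ F)) (b : (F →+* ℂ) → K) : Prop :=
  (∀ σ, b (conj σ) = (-1) ^ (n - 1) * b σ) ∧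
    ∀ E ∈ S, ∀ τ : E →+* ℂ, ∑ σ : F →+* ℂ, (if σ.comp E.val.toRingHom = τ then b σ else 0) = 0

section

variable (F : Type) [Field F] [NumberField F] (S : Set (IntermediateField ℚ F))

/-- A multiplicatively closed set which generates `F` over a subfield `E0` contains an element `r` such that
`E0(r)` is not in `S`. -/
def MonoidShape : Prop :=
  ∀ (E0 : IntermediateField ℚ F) (M : Submonoid F),
    E0 ⊔ IntermediateField.adjoin ℚ (M : Set F) = ⊤ →
      ∃ r ∈ M, E0 ⊔ IntermediateField.adjoin ℚ {r} ∉ S

/-- If `L` is a Galois extension of `F` and `A` is an abelian group of automorphisms of `L` in which only `1`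
fixes the elements of `F`, then `A` has a character `χ` such that for every subgroup `B` of the kernel of `χ`
which is normalised by `Gal(L/F)` the field of the elements of `F` which are fixed by `B` is not in `S`. -/
def AffineShape : Prop :=
  ∀ (L : Type) [Field L] [NumberField L] [Algebra F L], IsGalois F L →
    ∀ A : Subgroup (L ≃ₐ[ℚ] L), IsFree F A → ∃ χ : A →* ℂ, ∀ B, IsKilled F χ B → fixedIn F B ∉ S

variable {F} in
/-- `Gal(L/F)` acts on `A` by power maps. -/
def ActsByPowers {L : Type} [Field L] [NumberField L] [Algebra F L] (A : Subgroup (L ≃ₐ[ℚ] L)) : Prop :=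
  ∀ h ∈ autOver F L, ∀ a ∈ A, h * a * h⁻¹ ∈ Subgroup.zpowers a

/-- If `L` and `A` are as before, `Gal(L/F)` acts on `A` by power maps and all fields `F^B`, `1 ≠ B ≤ A`, are in
`S` then `A` is cyclic. -/
def CyclicShape : Prop :=
  ∀ (L : Type) [Field L] [NumberField L] [Algebra F L], IsGalois F L →
    ∀ A : Subgroup (L ≃ₐ[ℚ] L), IsFree F A → ActsByPowers (F := F) A →
      (∀ B : Subgroup (L ≃ₐ[ℚ] L), B ≤ A → B ≠ ⊥ → fixedIn F B ∈ S) → IsCyclic A

/-- Over each field in `S` there are two embeddings of `F` with the same restriction which are neither equal nor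
complex conjugate. -/
def OddShape : Prop :=
  ∀ E ∈ S, ∃ σ σ' : F →+* ℂ,
    σ.comp E.val.toRingHom = σ'.comp E.val.toRingHom ∧ σ' ≠ σ ∧ σ' ≠ conj σ

end

/-- There is a rational function `≠ 0` on the embeddings with the properties `IsNewFor`. -/
def HasNewFor (n : ℕ) (F : Type) [Field F] [NumberField F] (S : Set (IntermediateField ℚ F)) : Prop :=
  ∃ a : (F →+* ℂ) → ℚ, a ≠ 0 ∧ IsNewFor ℚ n F S a

/-- The fields `F` for which `N(F)` is not a formal consequence of `N(E)`, `E ∈ S`. -/
structure Shape (n : ℕ) (F : Type) [Field F] [NumberField F] (S : Set (IntermediateField ℚ F)) :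
    Prop where
  /-- there is a rational function `≠ 0` on the embeddings with the properties above -/
  new : HasNewFor n F S
  /-- `F` is not the `ℚ`-linear span of the fields in `S` -/
  span : spanFields S ≠ ⊤
  monoid : MonoidShape F S
  affine : AffineShape F S
  cyclic : CyclicShape F S
  odd : Odd n → OddShape F S

/-- Every REAL function `b ≠ 0` with the properties `IsNewFor` is detected by the polylogarithm: there is an
element `α` of `ker δ_n` with `Σ_σ b(σ) L_n(σ(α)) ≠ 0`. -/
def DetectsFor (n : ℕ) (F : Type) [Field F] [NumberField F] (S : Set (IntermediateField ℚ F)) : Prop :=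
  ∀ b : (F →+* ℂ) → ℝ, b ≠ 0 → IsNewFor ℝ n F S b →
    ∃ α ∈ Ker n F, ∑ σ : F →+* ℂ, b σ * value n σ α ≠ 0

/-- The set of the proper subfields of `F`. -/
def properSubfields (F : Type) [Field F] [NumberField F] : Set (IntermediateField ℚ F) := {E | E ≠ ⊤}

end Pool.Agent.W2helper89.ZS
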