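import Pool.Agent.W2helper89.ZS.Cons

/-!
# The remaining determinants
-/

set_option autoImplicit false

namespace Pool.Agent.W2helper89.ZS

open GonP NumberField Pool.Agent.Q219.ZG Pool.Agent.Q219.ZN

section

variable {n : ℕ} {F : Type} [Field F] [NumberField F]

/-- the nonvanishing implies that the functions are detected -/
theorem detects_of_nonvanishing (hn : 0 < n) (hF : Nonvanishing n F) : Detects n F := by
  intro b hb0 hb _
  by_contra hcon
  have h1 : ∀ φ ∈ Val n F, ∑ σ : F →+* ℂ, b σ * φ σ = 0 := by
    intro φ hφ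
    unfold Val at hφ
    refine Submodule.span_induction (p := fun φ _ => ∑ σ : F →+* ℂ, b σ * φ σ = 0) ?_ ?_ ?_ ?_ hφ
    · rintro _ ⟨α, hα, rfl⟩
      by_contra h2
      exact hcon ⟨α, hα, h2⟩
    · exact Finset.sum_eq_zero fun σ _ => mul_zero _
    · intro x y _ _ hx hy
      have h2 : ∀ σ : F →+* ℂ, b σ * (x + y) σ = b σ * x σ + b σ * y σ := fun σ => mul_add _ _ _
      rw [Finset.sum_congr rfl fun σ _ => h2 σ, Finset.sum_add_distrib, hx, hy, add_zero]
    · intro c x _ hx
      have h2 : ∀ σ : F →+* ℂ, b σ * (c • x) σ = c * (b σ * x σ) := fun σ => by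
        show b σ * (c * x σ) = _
        ring
      rw [Finset.sum_congr rfl fun σ _ => h2 σ, ← Finset.mul_sum, hx, mul_zero]
  have h2 := h1 b ((nonvanishing_iff hn F).1 hF hb)
  refine hb0 (funext fun σ => ?_)
  have h3 := (Finset.sum_eq_zero_iff_of_nonneg (fun σ _ => mul_self_nonneg (b σ))).1 h2 σ
    (Finset.mem_univ σ)
  exact mul_self_eq_zero.1 h3

/-- **The remaining determinants.** -/
theorem nonvanishing_iff_detects (hn : 3 ≤ n)
    (h : ∀ E : IntermediateField ℚ F, E ≠ ⊤ → Nonvanishing n E) :
    Nonvanishing n F ↔ Detects n F := by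
  classical
  refine ⟨detects_of_nonvanishing (by omega), fun hD => ?_⟩
  by_contra hF
  have h1 : ¬ Par n F ≤ Val n F := fun h2 => hF ((nonvanishing_iff (by omega) F).2 h2)
  obtain ⟨b, hb, hb0, hbW⟩ := exists_orth h1
  obtain ⟨α, hα, hne⟩ := hD b hb0 hb fun E hE τ => fibre_sum hb E (fun ψ hψ => by
    refine hbW _ ?_ (pull_Par _ hψ)
    exact pull_Val hn _ ((nonvanishing_iff (by omega) _).1 (h E hE) hψ)) τ
  exact hne (hbW _ (vec_mem_Val hα) (Val_le_Par (by omega) F (vec_mem_Val hα)))

/-- classes of fields which are closed under subfields -/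
theorem class_iff (hn : 3 ≤ n) (P : ∀ (F : Type) [Field F] [NumberField F], Prop)
    (hP : ∀ (F : Type) [Field F] [NumberField F], P F → ∀ E : IntermediateField ℚ F, P E) :
    ((∀ (F : Type) [Field F] [NumberField F], P F → Nonvanishing n F) ↔
      ∀ (F : Type) [Field F] [NumberField F], P F → HasNew n F → Remaining n F → Detects n F) := by
  refine ⟨fun h F _ _ hF _ _ => detects_of_nonvanishing (by omega) (h F hF), fun h => ?_⟩
  suffices H : ∀ (d : ℕ) (F : Type) [Field F] [NumberField F], Module.finrank ℚ F ≤ d → P F →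
      Nonvanishing n F from fun F _ _ hF => H _ F le_rfl hF
  intro d
  induction d with
  | zero =>
    intro F _ _ hd
    have : 0 < Module.finrank ℚ F := Module.finrank_pos
    omega
  | succ d ih =>
    intro F _ _ hd hF
    have h1 : ∀ E : IntermediateField ℚ F, E ≠ ⊤ → Nonvanishing n E := by
      intro E hE
      refine ih E ?_ (hP F hF E)
      have h2 : Module.finrank ℚ E < Module.finrank ℚ F := by
        refine Submodule.finrank_lt (s := Subalgebra.toSubmodule E.toSubalgebra) fun htop => hE ?_
        rw [eq_top_iff]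
        intro x _
        have : x ∈ Subalgebra.toSubmodule E.toSubalgebra := by
          rw [htop]
          exact Submodule.mem_top
        exact this
      omega
    by_contra hcon
    exact hcon ((nonvanishing_iff_detects hn h1).2 (h F hF (hasNew_of_not hn h1 hcon)
      (remaining_of_not hn h1 hcon)))

end

end Pool.Agent.W2helper89.ZS
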