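import Pool.Agent.W2helper89.ZS.Det
import Pool.Agent.W2helper89.ZS.Abel

/-!
# Fields for which the new functions form an irreducible representation
-/

set_option autoImplicit false

namespace Pool.Agent.W2helper89.ZS

open GonP NumberField Pool.Agent.Q219.ZG Pool.Agent.Q219.ZN

section

variable {n : ℕ} {F : Type} [Field F] [NumberField F]

/-- the rational functions `IsNew n F` -/
def newSpace (n : ℕ) (F : Type) [Field F] [NumberField F] : Submodule ℚ ((F →+* ℂ) → ℚ) where
  carrier := {a | IsNew n F a}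
  zero_mem' := by
    refine ⟨fun σ => (mul_zero _).symm, fun E _ τ => Finset.sum_eq_zero fun σ _ => ?_⟩
    split_ifs <;> rfl
  add_mem' := by
    classical
    intro a b ha hb
    refine ⟨fun σ => ?_, fun E hE τ => ?_⟩
    · show a (conj σ) + b (conj σ) = (-1) ^ (n - 1) * (a σ + b σ)
      rw [ha.1, hb.1, mul_add]
    · have h1 := ha.2 E hE τ
      have h2 := hb.2 E hE τ
      rw [← Finset.sum_filter] at h1 h2 ⊢
      show ∑ σ ∈ _, (a σ + b σ) = 0
      rw [Finset.sum_add_distrib, h1, h2, add_zero]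
  smul_mem' := by
    classical
    intro c a ha
    refine ⟨fun σ => ?_, fun E hE τ => ?_⟩
    · show c * a (conj σ) = (-1) ^ (n - 1) * (c * a σ)
      rw [ha.1]
      ring
    · have h1 := ha.2 E hE τ
      rw [← Finset.sum_filter] at h1 ⊢
      show ∑ σ ∈ _, (c * a σ) = 0
      rw [← Finset.mul_sum, h1, mul_zero]

open Classical in
/-- the real functions with the same properties -/
def IsNewR (n : ℕ) (F : Type) [Field F] [NumberField F] (b : (F →+* ℂ) → ℝ) : Prop :=
  b ∈ Par n F ∧ ∀ E : IntermediateField ℚ F, E ≠ ⊤ → ∀ τ : E →+* ℂ,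
      ∑ σ : F →+* ℂ, (if σ.comp E.val.toRingHom = τ then b σ else 0) = 0

/-- rational functionals of a real function with these properties -/
lemma isNew_functional {b : (F →+* ℂ) → ℝ} (hb : IsNewR n F b) (e : Module.Dual ℚ ℝ) :
    IsNew n F (fun σ => e (b σ)) := by
  classical
  refine ⟨fun σ => ?_, fun E hE τ => ?_⟩
  · show e (b (conj σ)) = (-1) ^ (n - 1) * e (b σ)
    rw [hb.1 σ]
    rcases neg_one_pow_eq_or ℝ (n - 1) with h1 | h1
    · have h2 : (-1 : ℚ) ^ (n - 1) = 1 := by
        have h3 : (((-1 : ℚ) ^ (n - 1) : ℚ) : ℝ) = ((1 : ℚ) : ℝ) := by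
          push_cast
          exact h1
        exact_mod_cast h3
      rw [h1, h2, one_mul, one_mul]
    · have h2 : (-1 : ℚ) ^ (n - 1) = -1 := by
        have h3 : (((-1 : ℚ) ^ (n - 1) : ℚ) : ℝ) = ((-1 : ℚ) : ℝ) := by
          push_cast
          exact h1
        exact_mod_cast h3
      rw [h1, h2, neg_one_mul, neg_one_mul, map_neg]
  · have h4 := congrArg e (hb.2 E hE τ)
    rw [map_sum, map_zero] at h4
    refine Eq.trans (Finset.sum_congr rfl fun σ _ => ?_) h4
    by_cases h5 : σ.comp E.val.toRingHom = τ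
    · rw [if_pos h5, if_pos h5]
    · rw [if_neg h5, if_neg h5, map_zero]

/-- real functions are real combinations of rational functions -/
lemma real_mem_span {b : (F →+* ℂ) → ℝ} (hb : IsNewR n F b) :
    b ∈ Submodule.span ℝ {φ : (F →+* ℂ) → ℝ | ∃ a ∈ newSpace n F, φ = fun σ => (a σ : ℝ)} := by
  classical
  let B := Module.Basis.ofVectorSpace ℚ ℝ
  set S := Finset.univ.biUnion fun σ : F →+* ℂ => (B.repr (b σ)).support with hS
  have h1 : b = ∑ i ∈ S, (B i) • fun σ : F →+* ℂ => ((B.coord i (b σ) : ℚ) : ℝ) := by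
    funext σ
    rw [Finset.sum_apply]
    have h2 : b σ = ∑ i ∈ (B.repr (b σ)).support, (B.repr (b σ) i) • B i := by
      conv_lhs => rw [← B.linearCombination_repr (b σ)]
      rfl
    rw [h2]
    refine Eq.trans (Finset.sum_subset (s₂ := S) ?_ ?_) ?_
    · intro i hi
      exact Finset.mem_biUnion.2 ⟨σ, Finset.mem_univ _, hi⟩
    · intro i _ hi
      rw [Finsupp.notMem_support_iff.1 hi, zero_smul]
    · refine Finset.sum_congr rfl fun i _ => ?_
      show (B.repr (b σ) i) • B i = B i * ((B.coord i (b σ) : ℚ) : ℝ)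
      rw [Rat.smul_def, mul_comm]
      rfl
  rw [h1]
  refine Submodule.sum_mem _ fun i _ => Submodule.smul_mem _ _ (Submodule.subset_span ?_)
  exact ⟨fun σ => B.coord i (b σ), isNew_functional hb (B.coord i), rfl⟩

/-- the real dimension is at most the rational dimension -/
lemma card_le {ι : Type} [Fintype ι] {b : ι → (F →+* ℂ) → ℝ} (hb : ∀ i, IsNewR n F (b i))
    (hli : LinearIndependent ℝ b) : Fintype.card ι ≤ Module.finrank ℚ (newSpace n F) := by
  classical
  let v := Module.finBasis ℚ (newSpace n F)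
  let c : ((F →+* ℂ) → ℚ) →ₗ[ℚ] ((F →+* ℂ) → ℝ) :=
    { toFun := fun a σ => (a σ : ℝ)
      map_add' := by
        intro a a'
        funext σ
        show ((a σ + a' σ : ℚ) : ℝ) = (a σ : ℝ) + (a' σ : ℝ)
        push_cast
        ring
      map_smul' := by
        intro q a
        funext σ
        show ((q * a σ : ℚ) : ℝ) = q • (a σ : ℝ)
        rw [Rat.smul_def]
        push_cast
        ring }
  let w : Fin (Module.finrank ℚ (newSpace n F)) → (F →+* ℂ) → ℝ := fun i => c (v i : (F →+* ℂ) → ℚ)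
  have h1 : Submodule.span ℝ {φ : (F →+* ℂ) → ℝ | ∃ a ∈ newSpace n F, φ = fun σ => (a σ : ℝ)} ≤
      Submodule.span ℝ (Set.range w) := by
    rw [Submodule.span_le]
    rintro _ ⟨a, ha, rfl⟩
    have h2 : (⟨a, ha⟩ : newSpace n F) = ∑ i, v.repr ⟨a, ha⟩ i • v i := (v.sum_repr _).symm
    have h3 : a = ∑ i, v.repr ⟨a, ha⟩ i • (v i : (F →+* ℂ) → ℚ) := by
      have h4 := congrArg (Submodule.subtype (newSpace n F)) h2
      rw [map_sum] at h4
      exact h4
    have h5 : (fun σ => (a σ : ℝ)) = c a := rfl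
    rw [h5, h3, map_sum]
    refine Submodule.sum_mem _ fun i _ => ?_
    rw [map_smul]
    have h6 : (v.repr ⟨a, ha⟩ i) • c (v i : (F →+* ℂ) → ℚ) = ((v.repr ⟨a, ha⟩ i : ℚ) : ℝ) • w i := by
      funext σ
      show (v.repr ⟨a, ha⟩ i) • (c (v i : (F →+* ℂ) → ℚ) σ) = ((v.repr ⟨a, ha⟩ i : ℚ) : ℝ) * w i σ
      rw [Rat.smul_def]
    rw [h6]
    exact Submodule.smul_mem _ _ (Submodule.subset_span ⟨i, rfl⟩)
  have h2 : Submodule.span ℝ (Set.range b) ≤ Submodule.span ℝ (Set.range w) := by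
    rw [Submodule.span_le]
    rintro _ ⟨i, rfl⟩
    exact h1 (real_mem_span (hb i))
  have h3 := Submodule.finrank_mono h2
  rw [finrank_span_eq_card hli] at h3
  refine h3.trans ((finrank_range_le_card w).trans ?_)
  rw [Fintype.card_fin]

end

section

variable {T : KTheory} {n : ℕ} {F : Type} [Field F] [NumberField F]

/-- the regulators have the right parity -/
lemma reg_par (hT : T.IsKnown' n) (x : T.K F) : (fun σ => T.reg σ x) ∈ Par n F := fun σ => hT.conj_reg σ x

/-- the regulators span -/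
lemma par_span (hT : T.IsKnown' n) (hn : 0 < n) {φ : (F →+* ℂ) → ℝ} (hφ : φ ∈ Par n F) :
    φ ∈ Submodule.span ℝ (Set.range fun (x : T.K F) (σ : F →+* ℂ) => T.reg σ x) := by
  obtain ⟨b, hdet, -⟩ := hT.borel F
  set M : Matrix (Idx n F) (Idx n F) ℝ := Matrix.of fun w v => T.reg v.1.embedding (b w) with hM
  have hdet' : M.det ≠ 0 := hdet
  obtain ⟨c, hc⟩ : ∃ c : Idx n F → ℝ, ∀ v : Idx n F,
      ∑ w, c w * T.reg v.1.embedding (b w) = φ v.1.embedding := by
    refine ⟨Matrix.vecMul (fun v => φ v.1.embedding) M⁻¹, fun v => ?_⟩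
    have h3 : Matrix.vecMul (Matrix.vecMul (fun v : Idx n F => φ v.1.embedding) M⁻¹) M =
        fun v : Idx n F => φ v.1.embedding := by
      rw [Matrix.vecMul_vecMul, Matrix.nonsing_inv_mul _ (isUnit_iff_ne_zero.2 hdet'), Matrix.vecMul_one]
    exact congrFun h3 v
  set ψ : (F →+* ℂ) → ℝ := ∑ w, c w • fun σ => T.reg σ (b w) with hψ
  have hψa : ∀ σ, ψ σ = ∑ w, c w * T.reg σ (b w) := by
    intro σ
    rw [hψ, Finset.sum_apply]
    rfl
  have hψP : ψ ∈ Par n F := Submodule.sum_mem _ fun w _ => Submodule.smul_mem _ _ (reg_par hT _)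
  have h1 : φ - ψ = 0 := by
    refine eq_zero_of_places hn (Submodule.sub_mem _ hφ hψP) fun v => ?_
    show φ v.1.embedding - ψ v.1.embedding = 0
    rw [hψa, hc, sub_self]
  rw [sub_eq_zero.1 h1]
  exact Submodule.sum_mem _ fun w _ => Submodule.smul_mem _ _ (Submodule.subset_span ⟨b w, rfl⟩)

/-- a function in `Par` which is orthogonal to all the regulators -/
lemma eq_zero_of_orth (hT : T.IsKnown' n) (hn : 0 < n) {b : (F →+* ℂ) → ℝ} (hb : b ∈ Par n F)
    (h : ∀ x : T.K F, ∑ σ, b σ * T.reg σ x = 0) : b = 0 := by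
  have h1 : ∀ φ ∈ Submodule.span ℝ (Set.range fun (x : T.K F) (σ : F →+* ℂ) => T.reg σ x),
      ∑ σ : F →+* ℂ, b σ * φ σ = 0 := by
    intro φ hφ
    refine Submodule.span_induction (p := fun φ _ => ∑ σ : F →+* ℂ, b σ * φ σ = 0) ?_ ?_ ?_ ?_ hφ
    · rintro _ ⟨x, rfl⟩
      exact h x
    · exact Finset.sum_eq_zero fun σ _ => mul_zero _
    · intro x y _ _ hx hy
      have h2 : ∀ σ : F →+* ℂ, b σ * (x + y) σ = b σ * x σ + b σ * y σ := fun σ => mul_add _ _ _
      rw [Finset.sum_congr rfl fun σ _ => h2 σ, Finset.sum_add_distrib, hx, hy, add_zero]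
    · intro c x _ hx
      have h2 : ∀ σ : F →+* ℂ, b σ * (c • x) σ = c * (b σ * x σ) := fun σ => by
        show b σ * (c * x σ) = _
        ring
      rw [Finset.sum_congr rfl fun σ _ => h2 σ, ← Finset.mul_sum, hx, mul_zero]
  have h2 := h1 b (par_span hT hn hb)
  funext σ
  exact mul_self_eq_zero.1 ((Finset.sum_eq_zero_iff_of_nonneg (fun σ _ => mul_self_nonneg (b σ))).1 h2 σ
    (Finset.mem_univ σ))

/-- the dimension of `Par` -/
lemma finrank_par (hn : 0 < n) (F : Type) [Field F] [NumberField F] :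
    Module.finrank ℝ (Par n F) = Fintype.card (Idx n F) := by
  let ev : Par n F →ₗ[ℝ] (Idx n F → ℝ) :=
    { toFun := fun φ v => φ.1 v.1.embedding
      map_add' := fun _ _ => rfl
      map_smul' := fun _ _ => rfl }
  have h1 : Function.Injective ev := by
    rw [injective_iff_map_eq_zero]
    intro φ hφ
    exact Subtype.ext (eq_zero_of_places hn φ.2 fun v => congrFun hφ v)
  have h2 : Function.Surjective ev := by
    intro g
    obtain ⟨φ, hφ, hg⟩ := exists_of_places hn g
    exact ⟨⟨φ, hφ⟩, funext hg⟩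
  rw [(LinearEquiv.ofBijective ev ⟨h1, h2⟩).finrank_eq, Module.finrank_fintype_fun_eq_card]

/-- rational functionals on the K-group are given by functions in `Par` -/
lemma exists_function (hT : T.IsKnown' n) (hn : 0 < n) (l : Module.Dual ℚ (T.K F)) :
    ∃ b ∈ Par n F, ∀ x : T.K F, ∑ σ, b σ * T.reg σ x = (l x : ℝ) := by
  obtain ⟨b, hdet, -⟩ := hT.borel F
  let R : Par n F →ₗ[ℝ] (Idx n F → ℝ) :=
    { toFun := fun φ w => ∑ σ, φ.1 σ * T.reg σ (b w)
      map_add' := by
        intro φ ψ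
        funext w
        show ∑ σ, (φ.1 σ + ψ.1 σ) * T.reg σ (b w) = _ + _
        rw [← Finset.sum_add_distrib]
        exact Finset.sum_congr rfl fun σ _ => add_mul _ _ _
      map_smul' := by
        intro c φ
        funext w
        show ∑ σ, (c * φ.1 σ) * T.reg σ (b w) = c * ∑ σ, φ.1 σ * T.reg σ (b w)
        rw [Finset.mul_sum]
        exact Finset.sum_congr rfl fun σ _ => mul_assoc _ _ _ }
  have hlin : ∀ (φ : (F →+* ℂ) → ℝ) (x : T.K F), ∑ σ, φ σ * T.reg σ x =
      ∑ w, (b.repr x w : ℝ) * ∑ σ, φ σ * T.reg σ (b w) := by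
    intro φ x
    conv_lhs => rw [← b.sum_repr x]
    simp only [map_sum, map_smul, Finset.mul_sum, Rat.smul_def]
    rw [Finset.sum_comm]
    refine Finset.sum_congr rfl fun w _ => Finset.sum_congr rfl fun σ _ => ?_
    ring
  have h1 : Function.Injective R := by
    rw [injective_iff_map_eq_zero]
    intro φ hφ
    refine Subtype.ext (eq_zero_of_orth hT hn φ.2 fun x => ?_)
    rw [hlin]
    refine Finset.sum_eq_zero fun w _ => ?_
    have h2 : ∑ σ, φ.1 σ * T.reg σ (b w) = 0 := congrFun hφ w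
    rw [h2, mul_zero]
  have h2 : Function.Surjective R := by
    refine (LinearMap.injective_iff_surjective_of_finrank_eq_finrank ?_).1 h1
    rw [finrank_par hn, Module.finrank_fintype_fun_eq_card]
  obtain ⟨φ, hφ⟩ := h2 fun w => (l (b w) : ℝ)
  refine ⟨φ.1, φ.2, fun x => ?_⟩
  rw [hlin]
  have h3 : ∀ w, ∑ σ, φ.1 σ * T.reg σ (b w) = (l (b w) : ℝ) := fun w => congrFun hφ w
  simp only [h3]
  conv_rhs => rw [← b.sum_repr x]
  rw [map_sum]
  push_cast
  refine Finset.sum_congr rfl fun w _ => ?_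
  rw [map_smul, smul_eq_mul]
  push_cast
  rfl

end

end Pool.Agent.W2helper89.ZS
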