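import Pool.Agent.W2helper89.ZS.Defs
import Pool.Agent.Q219.ZN.Min

/-!
# The values of the polylogarithms and the functions which do not come from proper subfields
-/

set_option autoImplicit false

namespace Pool.Agent.W2helper89.ZS

open GonP NumberField Pool.Agent.Q219.ZG Pool.Agent.Q219.ZN

section

variable {n : ℕ} {F : Type} [Field F] [NumberField F]

/-- the values of the functions with the wrong parity: a function in the orthogonal complement of a
subspace of `Par` -/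
lemma exists_orth {W : Submodule ℝ ((F →+* ℂ) → ℝ)} (h : ¬ Par n F ≤ W) :
    ∃ b ∈ Par n F, b ≠ 0 ∧ ∀ φ ∈ W, φ ∈ Par n F → ∑ σ, b σ * φ σ = 0 := by
  classical
  rw [SetLike.not_le_iff_exists] at h
  obtain ⟨φ0, hφ0, hφW⟩ := h
  obtain ⟨f, hf0, hfW⟩ := Submodule.exists_le_ker_of_notMem hφW
  have hsum : ∀ φ : (F →+* ℂ) → ℝ, f φ = ∑ σ, f (Pi.single σ 1) * φ σ := by
    intro φ
    conv_lhs => rw [← Finset.univ_sum_single φ]
    rw [map_sum]
    refine Finset.sum_congr rfl fun σ _ => ?_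
    have h1 : (Pi.single σ (φ σ) : (F →+* ℂ) → ℝ) = φ σ • Pi.single σ 1 := by
      rw [← Pi.single_smul, smul_eq_mul, mul_one]
    rw [h1, map_smul, smul_eq_mul, mul_comm]
  set b0 : (F →+* ℂ) → ℝ := fun σ => f (Pi.single σ 1) with hb0
  have hsq : ((-1 : ℝ) ^ (n - 1)) * (-1) ^ (n - 1) = 1 := by
    rw [← mul_pow]
    norm_num
  set b : (F →+* ℂ) → ℝ := fun σ => b0 σ + (-1) ^ (n - 1) * b0 (conj σ) with hb
  have hbP : b ∈ Par n F := by
    intro σ
    show b0 (conj σ) + (-1) ^ (n - 1) * b0 (conj (conj σ)) = (-1) ^ (n - 1) * (b0 σ + (-1) ^ (n - 1) * b0 (conj σ))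
    rw [conj_conj, mul_add, ← mul_assoc, hsq]
    ring
  have hbφ : ∀ φ ∈ Par n F, ∑ σ, b σ * φ σ = 2 * f φ := by
    intro φ hφ
    have h2 : ∑ σ : F →+* ℂ, (-1) ^ (n - 1) * b0 (conj σ) * φ σ = ∑ σ, b0 σ * φ σ := by
      refine Finset.sum_nbij' (fun σ => conj σ) (fun σ => conj σ) (fun _ _ => Finset.mem_univ _)
        (fun _ _ => Finset.mem_univ _) (fun σ _ => conj_conj σ) (fun σ _ => conj_conj σ) fun σ _ => ?_
      rw [hφ σ]
      ring
    rw [hsum φ]
    have h3 : ∀ σ : F →+* ℂ, b σ * φ σ = b0 σ * φ σ + (-1) ^ (n - 1) * b0 (conj σ) * φ σ := by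
      intro σ
      rw [hb]
      ring
    rw [Finset.sum_congr rfl fun σ _ => h3 σ, Finset.sum_add_distrib, h2]
    ring
  refine ⟨b, hbP, ?_, fun φ hφW hφ => ?_⟩
  · intro hb0'
    have h4 := hbφ φ0 hφ0
    rw [hb0'] at h4
    simp only [Pi.zero_apply, zero_mul, Finset.sum_const_zero] at h4
    exact hf0 (by linarith)
  · have h5 : f φ = 0 := hfW hφW
    rw [hbφ φ hφ, h5, mul_zero]

open Classical in
/-- the indicator functions which are pulled back from a subfield -/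
lemma fibre_sum {b : (F →+* ℂ) → ℝ} (hb : b ∈ Par n F) (E : IntermediateField ℚ F)
    (h : ∀ ψ ∈ Par n E, ∑ σ, b σ * pull E.val.toRingHom ψ σ = 0) (τ : E →+* ℂ) :
    ∑ σ : F →+* ℂ, (if σ.comp E.val.toRingHom = τ then b σ else 0) = 0 := by
  have hsq : ((-1 : ℝ) ^ (n - 1)) * (-1) ^ (n - 1) = 1 := by
    rw [← mul_pow]
    norm_num
  set ψ : (E →+* ℂ) → ℝ := fun ρ => (if ρ = τ then 1 else 0) +
    (-1) ^ (n - 1) * (if conj ρ = τ then 1 else 0) with hψ
  have hψP : ψ ∈ Par n E := by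
    intro ρ
    show (if conj ρ = τ then 1 else 0) + (-1) ^ (n - 1) * (if conj (conj ρ) = τ then 1 else 0) =
      (-1) ^ (n - 1) * ((if ρ = τ then 1 else 0) + (-1) ^ (n - 1) * (if conj ρ = τ then (1 : ℝ) else 0))
    rw [conj_conj, mul_add, ← mul_assoc, hsq]
    ring
  have h1 := h ψ hψP
  have h2 : ∑ σ : F →+* ℂ, b σ * ((-1) ^ (n - 1) * (if conj (σ.comp E.val.toRingHom) = τ then (1 : ℝ) else 0)) =
      ∑ σ : F →+* ℂ, b σ * (if σ.comp E.val.toRingHom = τ then 1 else 0) := by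
    refine Finset.sum_nbij' (fun σ => conj σ) (fun σ => conj σ) (fun _ _ => Finset.mem_univ _)
      (fun _ _ => Finset.mem_univ _) (fun σ _ => conj_conj σ) (fun σ _ => conj_conj σ) fun σ _ => ?_
    rw [hb σ]
    have h3 : (conj σ).comp E.val.toRingHom = conj (σ.comp E.val.toRingHom) := rfl
    rw [h3]
    ring
  have h4 : ∑ σ : F →+* ℂ, b σ * pull E.val.toRingHom ψ σ =
      ∑ σ : F →+* ℂ, b σ * (if σ.comp E.val.toRingHom = τ then 1 else 0) +
      ∑ σ : F →+* ℂ, b σ * ((-1) ^ (n - 1) * (if conj (σ.comp E.val.toRingHom) = τ then (1 : ℝ) else 0)) := by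
    rw [← Finset.sum_add_distrib]
    refine Finset.sum_congr rfl fun σ _ => ?_
    rw [← mul_add]
    rfl
  rw [h4, h2] at h1
  have h5 : ∑ σ : F →+* ℂ, b σ * (if σ.comp E.val.toRingHom = τ then (1 : ℝ) else 0) =
      ∑ σ : F →+* ℂ, (if σ.comp E.val.toRingHom = τ then b σ else 0) := by
    refine Finset.sum_congr rfl fun σ _ => ?_
    rw [mul_ite, mul_one, mul_zero]
  rw [← h5]
  linarith

open Classical in
/-- from real to rational functions -/
lemma rational_of_real {b : (F →+* ℂ) → ℝ} (hb : b ∈ Par n F) (hb0 : b ≠ 0)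
    (h : ∀ E : IntermediateField ℚ F, E ≠ ⊤ → ∀ τ : E →+* ℂ,
      ∑ σ : F →+* ℂ, (if σ.comp E.val.toRingHom = τ then b σ else 0) = 0) : HasNew n F := by
  obtain ⟨σ0, hσ0⟩ := Function.ne_iff.1 hb0
  obtain ⟨e, he⟩ : ∃ e : Module.Dual ℚ ℝ, e (b σ0) ≠ 0 := by
    by_contra hcon
    exact hσ0 ((Module.forall_dual_apply_eq_zero_iff ℚ (b σ0)).1 fun e => by
      by_contra h
      exact hcon ⟨e, h⟩)
  refine ⟨fun σ => e (b σ), fun h0 => he (congrFun h0 σ0), fun σ => ?_, fun E hE τ => ?_⟩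
  · show e (b (conj σ)) = (-1) ^ (n - 1) * e (b σ)
    rw [hb σ]
    rcases neg_one_pow_eq_or ℝ (n - 1) with h1 | h1
    · have h2 : (-1 : ℚ) ^ (n - 1) = 1 := by
        have h3 : (((-1 : ℚ) ^ (n - 1) : ℚ) : ℝ) = ((1 : ℚ) : ℝ) := by
          push_cast
          exact h1
        exact_mod_cast h3
      rw [h1, h2, one_mul, one_mul]
    · have h2 : (-1 : ℚ) ^ (n - 1) = -1 := by
        have h3 : (((-1 : ℚ) ^ (n - 1) : ℚ) : ℝ) = ((-1 : ℚ) : ℝ) := by
          push_cast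
          exact h1
        exact_mod_cast h3
      rw [h1, h2, neg_one_mul, neg_one_mul, map_neg]
  · have h4 := congrArg e (h E hE τ)
    rw [map_sum, map_zero] at h4
    refine Eq.trans (Finset.sum_congr rfl fun σ _ => ?_) h4
    by_cases h5 : σ.comp E.val.toRingHom = τ
    · rw [if_pos h5, if_pos h5]
    · rw [if_neg h5, if_neg h5, map_zero]

/-- a field of minimal degree -/
theorem hasNew_of_not (hn : 3 ≤ n)
    (h : ∀ E : IntermediateField ℚ F, E ≠ ⊤ → Nonvanishing n E) (hF : ¬ Nonvanishing n F) :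
    HasNew n F := by
  have h1 : ¬ Par n F ≤ Val n F := fun h2 => hF ((nonvanishing_iff (by omega) F).2 h2)
  obtain ⟨b, hb, hb0, hbW⟩ := exists_orth h1
  refine rational_of_real hb hb0 fun E hE τ => fibre_sum hb E (fun ψ hψ => ?_) τ
  refine hbW _ ?_ (pull_Par _ hψ)
  exact pull_Val hn _ ((nonvanishing_iff (by omega) _).1 (h E hE) hψ)

end

end Pool.Agent.W2helper89.ZS
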