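import Pool.Agent.W2helper89.ZS.Irr

/-!
# One element suffices
-/

set_option autoImplicit false

namespace Pool.Agent.W2helper89.ZS

open GonP NumberField Pool.Agent.Q219.ZG Pool.Agent.Q219.ZN

section

variable {T : KTheory} {n : ℕ} {F : Type} [Field F] [NumberField F]

/-- the part of the K-group which comes from the proper subfields -/
def oldPart (T : KTheory) (F : Type) [Field F] [NumberField F] : Submodule ℚ (T.K F) :=
  Submodule.span ℚ {x | ∃ E : IntermediateField ℚ F, E ≠ ⊤ ∧ ∃ y : T.K E, x = T.map E.val.toRingHom y}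

lemma oldPart_le (hT : T.IsKnown' n) (h : ∀ E : IntermediateField ℚ F, E ≠ ⊤ → Zagier n E) :
    oldPart T F ≤ polySpace T n F := by
  unfold oldPart
  rw [Submodule.span_le]
  rintro _ ⟨E, hE, y, rfl⟩
  exact map_isPoly hT _ ((zagier_iff hT _).1 (h E hE) y)

open Classical in
/-- the new functions are orthogonal to the old part -/
lemma orth_old (hT : T.IsKnown' n) {a : (F →+* ℂ) → ℚ} (ha : IsNew n F a) {x : T.K F}
    (hx : x ∈ oldPart T F) : ∑ σ, (a σ : ℝ) * T.reg σ x = 0 := by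
  unfold oldPart at hx
  refine Submodule.span_induction (p := fun x _ => ∑ σ : F →+* ℂ, (a σ : ℝ) * T.reg σ x = 0)
    ?_ ?_ ?_ ?_ hx
  · rintro _ ⟨E, hE, y, rfl⟩
    have h1 : ∀ σ : F →+* ℂ, (a σ : ℝ) * T.reg σ (T.map E.val.toRingHom y) =
        ∑ τ : E →+* ℂ, ((if σ.comp E.val.toRingHom = τ then a σ else 0 : ℚ) : ℝ) * T.reg τ y := by
      intro σ
      rw [hT.map_reg, Finset.sum_eq_single (σ.comp E.val.toRingHom)]
      · rw [if_pos rfl]
      · intro τ _ hτ
        rw [if_neg (Ne.symm hτ), Rat.cast_zero, zero_mul]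
      · intro h2
        exact absurd (Finset.mem_univ _) h2
    rw [Finset.sum_congr rfl fun σ _ => h1 σ, Finset.sum_comm]
    refine Finset.sum_eq_zero fun τ _ => ?_
    rw [← Finset.sum_mul, ← Rat.cast_sum, ha.2 E hE τ, Rat.cast_zero, zero_mul]
  · exact Finset.sum_eq_zero fun σ _ => by rw [map_zero, mul_zero]
  · intro y z _ _ hy hz
    have h1 : ∀ σ : F →+* ℂ, (a σ : ℝ) * T.reg σ (y + z) = (a σ : ℝ) * T.reg σ y + (a σ : ℝ) * T.reg σ z :=
      fun σ => by rw [map_add, mul_add]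
    rw [Finset.sum_congr rfl fun σ _ => h1 σ, Finset.sum_add_distrib, hy, hz, add_zero]
  · intro q y _ hy
    have h1 : ∀ σ : F →+* ℂ, (a σ : ℝ) * T.reg σ (q • y) = (q : ℝ) * ((a σ : ℝ) * T.reg σ y) :=
      fun σ => by
        rw [map_smul, Rat.smul_def]
        ring
    rw [Finset.sum_congr rfl fun σ _ => h1 σ, ← Finset.mul_sum, hy, mul_zero]

/-- functions which are orthogonal to the old part -/
lemma isNewR_of_orth (hT : T.IsKnown' n) (hn : 0 < n) {b : (F →+* ℂ) → ℝ} (hb : b ∈ Par n F)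
    (h : ∀ x ∈ oldPart T F, ∑ σ, b σ * T.reg σ x = 0) : IsNewR n F b := by
  refine ⟨hb, fun E hE τ => fibre_sum hb E (fun ψ hψ => ?_) τ⟩
  have h1 := par_span hT hn hψ
  refine Submodule.span_induction (p := fun ψ _ => ∑ σ : F →+* ℂ, b σ * pull E.val.toRingHom ψ σ = 0)
    ?_ ?_ ?_ ?_ h1
  · rintro _ ⟨y, rfl⟩
    rw [← h (T.map E.val.toRingHom y) (Submodule.subset_span ⟨E, hE, y, rfl⟩)]
    refine Finset.sum_congr rfl fun σ _ => ?_
    rw [hT.map_reg]
    rfl
  · exact Finset.sum_eq_zero fun σ _ => by rw [map_zero]; exact mul_zero _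
  · intro x y _ _ hx hy
    have h2 : ∀ σ : F →+* ℂ, b σ * pull E.val.toRingHom (x + y) σ =
        b σ * pull E.val.toRingHom x σ + b σ * pull E.val.toRingHom y σ := fun σ => by
      rw [map_add]
      exact mul_add _ _ _
    rw [Finset.sum_congr rfl fun σ _ => h2 σ, Finset.sum_add_distrib, hx, hy, add_zero]
  · intro c x _ hx
    have h2 : ∀ σ : F →+* ℂ, b σ * pull E.val.toRingHom (c • x) σ =
        c * (b σ * pull E.val.toRingHom x σ) := fun σ => by
      rw [map_smul]
      show b σ * (c * _) = _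
      ring
    rw [Finset.sum_congr rfl fun σ _ => h2 σ, ← Finset.mul_sum, hx, mul_zero]

/-- the dimension of the new part -/
lemma finrank_old (hT : T.IsKnown' n) (hn : 0 < n) :
    Module.finrank ℚ (oldPart T F).dualAnnihilator ≤ Module.finrank ℚ (newSpace n F) := by
  have hfd : FiniteDimensional ℚ (T.K F) := by
    obtain ⟨b, -, -⟩ := hT.borel F
    exact Module.Finite.of_basis b
  let l := Module.finBasis ℚ (oldPart T F).dualAnnihilator
  choose b hbP hb using fun i => exists_function hT hn (l i : Module.Dual ℚ (T.K F))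
  have hnew : ∀ i, IsNewR n F (b i) := by
    intro i
    refine isNewR_of_orth hT hn (hbP i) fun x hx => ?_
    rw [hb, (Submodule.mem_dualAnnihilator _).1 (l i).2 x hx, Rat.cast_zero]
  have hli : LinearIndependent ℝ b := by
    rw [Fintype.linearIndependent_iff]
    intro c hc i
    rw [← Module.forall_dual_apply_eq_zero_iff ℚ (c i)]
    intro e
    have h1 : ∀ x : T.K F, ∑ i, c i * ((l i : Module.Dual ℚ (T.K F)) x : ℝ) = 0 := by
      intro x
      have h2 : ∑ σ, (∑ i, c i • b i) σ * T.reg σ x = 0 := by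
        rw [hc]
        exact Finset.sum_eq_zero fun σ _ => zero_mul _
      rw [← h2]
      have h3 : ∀ σ, (∑ i, c i • b i) σ * T.reg σ x = ∑ i, c i * (b i σ * T.reg σ x) := by
        intro σ
        rw [Finset.sum_apply, Finset.sum_mul]
        refine Finset.sum_congr rfl fun i _ => ?_
        show c i * b i σ * _ = _
        ring
      rw [Finset.sum_congr rfl fun σ _ => h3 σ, Finset.sum_comm]
      refine Finset.sum_congr rfl fun i _ => ?_
      rw [← Finset.mul_sum, hb]
    have h2 : ∑ i, e (c i) • (l i : Module.Dual ℚ (T.K F)) = 0 := by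
      refine LinearMap.ext fun x => ?_
      have h3 := congrArg e (h1 x)
      rw [map_sum, map_zero] at h3
      rw [LinearMap.sum_apply, LinearMap.zero_apply, ← h3]
      refine Finset.sum_congr rfl fun i _ => ?_
      have h4 : c i * ((l i : Module.Dual ℚ (T.K F)) x : ℝ) = ((l i : Module.Dual ℚ (T.K F)) x) • c i := by
        rw [Rat.smul_def, mul_comm]
      rw [h4, map_smul, LinearMap.smul_apply, smul_eq_mul, smul_eq_mul, mul_comm]
    have h3 : LinearIndependent ℚ (fun i => (l i : Module.Dual ℚ (T.K F))) :=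
      l.linearIndependent.map' (Submodule.subtype _) (Submodule.ker_subtype _)
    exact Fintype.linearIndependent_iff.1 h3 _ h2 i
  have h1 := card_le hnew hli
  rwa [Fintype.card_fin] at h1

/-- the pairing with a rational functional -/
noncomputable def pairQ (T : KTheory) (F : Type) [Field F] [NumberField F] (e : Module.Dual ℚ ℝ) :
    ((F →+* ℂ) → ℚ) →ₗ[ℚ] Module.Dual ℚ (T.K F) where
  toFun a :=
    { toFun := fun x => e (∑ σ, (a σ : ℝ) * T.reg σ x)
      map_add' := by
        intro x y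
        rw [← map_add, ← Finset.sum_add_distrib]
        congr 1
        exact Finset.sum_congr rfl fun σ _ => by rw [map_add, mul_add]
      map_smul' := by
        intro q x
        rw [RingHom.id_apply, ← map_smul, Finset.smul_sum]
        congr 1
        refine Finset.sum_congr rfl fun σ _ => ?_
        rw [map_smul, mul_smul_comm] }
  map_add' := by
    intro a b
    refine LinearMap.ext fun x => ?_
    show e (∑ σ, ((a σ + b σ : ℚ) : ℝ) * T.reg σ x) = e (∑ σ, (a σ : ℝ) * T.reg σ x) + e (∑ σ, (b σ : ℝ) * T.reg σ x)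
    rw [← map_add, ← Finset.sum_add_distrib]
    congr 1
    refine Finset.sum_congr rfl fun σ _ => ?_
    push_cast
    ring
  map_smul' := by
    intro q a
    refine LinearMap.ext fun x => ?_
    show e (∑ σ, ((q * a σ : ℚ) : ℝ) * T.reg σ x) = q • e (∑ σ, (a σ : ℝ) * T.reg σ x)
    rw [← map_smul, Finset.smul_sum]
    congr 1
    refine Finset.sum_congr rfl fun σ _ => ?_
    rw [Rat.smul_def]
    push_cast
    ring

lemma pairQ_apply (e : Module.Dual ℚ ℝ) (a : (F →+* ℂ) → ℚ) (x : T.K F) :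
    pairQ T F e a x = e (∑ σ, (a σ : ℝ) * T.reg σ x) := rfl

/-- the automorphisms and the pairing -/
lemma pair_aut (hT : T.IsKnown' n) (g : F ≃ₐ[ℚ] F) (a : (F →+* ℂ) → ℚ) (x : T.K F) :
    ∑ σ : F →+* ℂ, (a (σ.comp (g : F →+* F)) : ℝ) * T.reg σ x =
      ∑ σ, (a σ : ℝ) * T.reg σ (T.map (g⁻¹ : F ≃ₐ[ℚ] F) x) := by
  refine Finset.sum_nbij' (fun σ => σ.comp (g : F →+* F)) (fun σ => σ.comp ((g⁻¹ : F ≃ₐ[ℚ] F) : F →+* F))
    (fun _ _ => Finset.mem_univ _) (fun _ _ => Finset.mem_univ _) ?_ ?_ ?_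
  · intro σ _
    refine RingHom.ext fun z => congrArg σ ?_
    show (g * g⁻¹) z = z
    rw [mul_inv_cancel]
    rfl
  · intro σ _
    refine RingHom.ext fun z => congrArg σ ?_
    show (g⁻¹ * g) z = z
    rw [inv_mul_cancel]
    rfl
  · intro σ _
    rw [hT.map_reg]
    have h1 : (σ.comp (g : F →+* F)).comp ((g⁻¹ : F ≃ₐ[ℚ] F) : F →+* F) = σ := by
      refine RingHom.ext fun z => congrArg σ ?_
      show (g * g⁻¹) z = z
      rw [mul_inv_cancel]
      rfl
    rw [h1]

open Classical in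
/-- the image of a proper subfield is a proper subfield, in terms of functions -/
lemma isNew_aut {a : (F →+* ℂ) → ℚ} (ha : IsNew n F a) (g : F ≃ₐ[ℚ] F) :
    IsNew n F (fun σ => a (σ.comp (g : F →+* F))) := by
  refine ⟨fun σ => ha.1 (σ.comp (g : F →+* F)), fun E hE τ => ?_⟩
  set E' : IntermediateField ℚ F := E.map ((g⁻¹ : F ≃ₐ[ℚ] F) : F →ₐ[ℚ] F) with hE'
  have hmem : ∀ x : E', g (x : F) ∈ E := by
    rintro ⟨x, hx⟩
    obtain ⟨y, hy, hyx⟩ := hx
    have h1 : g x = y := by
      have h2 : (g⁻¹ : F ≃ₐ[ℚ] F) y = x := hyx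
      rw [← h2]
      show (g * g⁻¹) y = y
      rw [mul_inv_cancel]
      rfl
    show g x ∈ E
    rw [h1]
    exact hy
  have hmem' : ∀ y : E, (g⁻¹ : F ≃ₐ[ℚ] F) (y : F) ∈ E' := fun y => ⟨y, y.2, rfl⟩
  have hne : E' ≠ ⊤ := by
    intro htop
    refine hE ?_
    rw [eq_top_iff]
    intro y _
    have h1 : (g⁻¹ : F ≃ₐ[ℚ] F) y ∈ E' := by
      rw [htop]
      exact IntermediateField.mem_top
    have h2 := hmem ⟨_, h1⟩
    have h3 : g ((g⁻¹ : F ≃ₐ[ℚ] F) y) = y := by
      show (g * g⁻¹) y = y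
      rw [mul_inv_cancel]
      rfl
    have h4 : g ((g⁻¹ : F ≃ₐ[ℚ] F) y) ∈ E := h2
    rwa [h3] at h4
  let gE : E' →+* E :=
    { toFun := fun x => ⟨g x, hmem x⟩
      map_one' := Subtype.ext (map_one g)
      map_mul' := fun x y => Subtype.ext (map_mul g _ _)
      map_zero' := Subtype.ext (map_zero g)
      map_add' := fun x y => Subtype.ext (map_add g _ _) }
  have h1 := ha.2 E' hne (τ.comp gE)
  refine Eq.trans ?_ h1
  refine Finset.sum_nbij' (fun σ => σ.comp (g : F →+* F)) (fun σ => σ.comp ((g⁻¹ : F ≃ₐ[ℚ] F) : F →+* F))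
    (fun _ _ => Finset.mem_univ _) (fun _ _ => Finset.mem_univ _) ?_ ?_ ?_
  · intro σ _
    refine RingHom.ext fun z => congrArg σ ?_
    show (g * g⁻¹) z = z
    rw [mul_inv_cancel]
    rfl
  · intro σ _
    refine RingHom.ext fun z => congrArg σ ?_
    show (g⁻¹ * g) z = z
    rw [inv_mul_cancel]
    rfl
  · intro σ _
    have h2 : (σ.comp E.val.toRingHom = τ) = ((σ.comp (g : F →+* F)).comp E'.val.toRingHom = τ.comp gE) := by
      refine propext ⟨fun h => ?_, fun h => ?_⟩
      · rw [← h]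
        rfl
      · refine RingHom.ext fun y => ?_
        have h3 := RingHom.congr_fun h ⟨(g⁻¹ : F ≃ₐ[ℚ] F) y, hmem' y⟩
        have h4 : g ((g⁻¹ : F ≃ₐ[ℚ] F) (y : F)) = y := by
          show (g * g⁻¹) (y : F) = y
          rw [mul_inv_cancel]
          rfl
        have h5 : σ (g ((g⁻¹ : F ≃ₐ[ℚ] F) (y : F))) = τ (gE ⟨(g⁻¹ : F ≃ₐ[ℚ] F) y, hmem' y⟩) := h3
        have h6 : gE ⟨(g⁻¹ : F ≃ₐ[ℚ] F) y, hmem' y⟩ = y := Subtype.ext h4
        rw [h4, h6] at h5
        exact h5
    simp only [h2]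

/-- **One element suffices if the new functions form an irreducible representation.** -/
theorem zagier_of_one (hn : 0 < n) (hT : T.IsKnown' n) (hirr : IrreducibleNew n F)
    (h : ∀ E : IntermediateField ℚ F, E ≠ ⊤ → Zagier n E) (hone : HasOne n F) : Zagier n F := by
  obtain ⟨a0, ha0, α, hα, hsum⟩ := hone
  obtain ⟨x0, hx0⟩ := hT.polylog α hα
  have hx0W : x0 ∈ polySpace T n F := by
    refine ⟨1, one_ne_zero, α, hα, fun τ => ?_⟩
    rw [Int.cast_one, one_smul, hx0]
  have hsum' : ∑ σ, (a0 σ : ℝ) * T.reg σ x0 ≠ 0 := by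
    simp only [hx0]
    exact hsum
  obtain ⟨e, he⟩ : ∃ e : Module.Dual ℚ ℝ, e (∑ σ, (a0 σ : ℝ) * T.reg σ x0) ≠ 0 := by
    by_contra hcon
    exact hsum' ((Module.forall_dual_apply_eq_zero_iff ℚ _).1 fun e => by
      by_contra h
      exact hcon ⟨e, h⟩)
  have hfd : FiniteDimensional ℚ (T.K F) := by
    obtain ⟨b, -, -⟩ := hT.borel F
    exact Module.Finite.of_basis b
  set W := polySpace T n F with hW
  set N : Submodule ℚ ((F →+* ℂ) → ℚ) := newSpace n F ⊓ (W.dualAnnihilator.comap (pairQ T F e)) with hN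
  have hN0 : N = ⊥ := by
    have hst : ∀ g : F ≃ₐ[ℚ] F, ∀ a ∈ N, (fun σ : F →+* ℂ => a (σ.comp (g : F →+* F))) ∈ N := by
      intro g a ha
      refine ⟨isNew_aut ha.1 g, ?_⟩
      have h2 : pairQ T F e a ∈ W.dualAnnihilator := ha.2
      show pairQ T F e (fun σ : F →+* ℂ => a (σ.comp (g : F →+* F))) ∈ W.dualAnnihilator
      rw [Submodule.mem_dualAnnihilator] at h2 ⊢
      intro w hw
      rw [pairQ_apply, pair_aut hT g a w]
      exact h2 _ (map_isPoly hT _ hw)
    rcases hirr N (fun a ha => ha.1) hst with h1 | h1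
    · exact h1
    · exfalso
      have h2 : pairQ T F e a0 ∈ W.dualAnnihilator := (h1 a0 ha0).2
      rw [Submodule.mem_dualAnnihilator] at h2
      exact he (h2 x0 hx0W)
  have hinj : Function.Injective ((pairQ T F e).domRestrict (newSpace n F)) := by
    rw [injective_iff_map_eq_zero]
    intro a ha
    have h1 : (a : (F →+* ℂ) → ℚ) ∈ N := by
      refine ⟨a.2, ?_⟩
      have h2 : pairQ T F e a = 0 := ha
      show pairQ T F e a ∈ W.dualAnnihilator
      rw [h2]
      exact Submodule.zero_mem _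
    rw [hN0] at h1
    exact Subtype.ext ((Submodule.mem_bot ℚ).1 h1)
  set I := LinearMap.range ((pairQ T F e).domRestrict (newSpace n F)) with hI
  have hIfin : Module.finrank ℚ I = Module.finrank ℚ (newSpace n F) := LinearMap.finrank_range_of_inj hinj
  have hIold : I ≤ (oldPart T F).dualAnnihilator := by
    rintro _ ⟨a, rfl⟩
    rw [Submodule.mem_dualAnnihilator]
    intro x hx
    show e (∑ σ, ((a : (F →+* ℂ) → ℚ) σ : ℝ) * T.reg σ x) = 0
    rw [orth_old hT a.2 hx, map_zero]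
  have hWold : W.dualAnnihilator ≤ (oldPart T F).dualAnnihilator :=
    Submodule.dualAnnihilator_anti (oldPart_le hT h)
  have hdisj : I ⊓ W.dualAnnihilator = ⊥ := by
    rw [Submodule.eq_bot_iff]
    rintro _ ⟨⟨a, rfl⟩, h2⟩
    have h1 : (a : (F →+* ℂ) → ℚ) ∈ N := ⟨a.2, h2⟩
    rw [hN0] at h1
    have h3 : a = 0 := Subtype.ext ((Submodule.mem_bot ℚ).1 h1)
    rw [h3, map_zero]
  have h1 := Submodule.finrank_sup_add_finrank_inf_eq I W.dualAnnihilator
  rw [hdisj, finrank_bot, add_zero, hIfin] at h1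
  have h2 := Submodule.finrank_mono (sup_le hIold hWold)
  have h3 := finrank_old (F := F) hT hn
  have h4 : Module.finrank ℚ W.dualAnnihilator = 0 := by omega
  have h5 := Subspace.finrank_add_finrank_dualAnnihilator_eq W
  have h6 : W = ⊤ := Submodule.eq_top_of_finrank_eq (by omega)
  rw [zagier_iff hT]
  intro x
  have h7 : x ∈ W := by
    rw [h6]
    exact Submodule.mem_top
  exact h7

/-- the converse -/
theorem one_of_nonvanishing (hn : 0 < n) (hN : Nonvanishing n F) (hnew : HasNew n F) : HasOne n F := by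
  obtain ⟨a, ha0, ha⟩ := hnew
  have h1 := detects_of_nonvanishing hn hN (fun σ => (a σ : ℝ)) (fun h0 => ha0 (funext fun σ =>
    Rat.cast_eq_zero.1 (congrFun h0 σ))) (fun σ => by
      show ((a (conj σ) : ℚ) : ℝ) = _
      rw [ha.1]
      push_cast
      rfl) (fun E hE τ => by
      have h2 := congrArg (fun x : ℚ => (x : ℝ)) (ha.2 E hE τ)
      simp only [Rat.cast_sum, Rat.cast_zero] at h2
      refine Eq.trans (Finset.sum_congr rfl fun σ _ => ?_) h2
      by_cases h5 : σ.comp E.val.toRingHom = τ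
      · rw [if_pos h5, if_pos h5]
      · rw [if_neg h5, if_neg h5, Rat.cast_zero])
  obtain ⟨α, hα, h2⟩ := h1
  exact ⟨a, ha, α, hα, h2⟩

end

end Pool.Agent.W2helper89.ZS
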