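import Pool.Agent.W2helper89.ZS.Det

/-!
# The reduction for an arbitrary set of subfields
-/

set_option autoImplicit false

namespace Pool.Agent.W2helper89.ZS

open GonP NumberField Pool.Agent.Q219.ZG Pool.Agent.Q219.ZN

section

variable {n : ℕ} {F : Type} [Field F] [NumberField F] {S : Set (IntermediateField ℚ F)}

/-- rational functionals -/
lemma newFor_functional {b : (F →+* ℂ) → ℝ} (hb : IsNewFor ℝ n F S b) (e : Module.Dual ℚ ℝ) :
    IsNewFor ℚ n F S (fun σ => e (b σ)) := by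
  classical
  refine ⟨fun σ => ?_, fun E hE τ => ?_⟩
  · show e (b (conj σ)) = (-1) ^ (n - 1) * e (b σ)
    rw [hb.1 σ]
    rcases neg_one_pow_eq_or ℝ (n - 1) with h1 | h1
    · have h2 : (-1 : ℚ) ^ (n - 1) = 1 := by
        have h3 : (((-1 : ℚ) ^ (n - 1) : ℚ) : ℝ) = ((1 : ℚ) : ℝ) := by
          push_cast
          exact h1
        exact_mod_cast h3
      rw [h1, h2, one_mul, one_mul]
    · have h2 : (-1 : ℚ) ^ (n - 1) = -1 := by
        have h3 : (((-1 : ℚ) ^ (n - 1) : ℚ) : ℝ) = ((-1 : ℚ) : ℝ) := by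
          push_cast
          exact h1
        exact_mod_cast h3
      rw [h1, h2, neg_one_mul, neg_one_mul, map_neg]
  · have h4 := congrArg e (hb.2 E hE τ)
    rw [map_sum, map_zero] at h4
    refine Eq.trans (Finset.sum_congr rfl fun σ _ => ?_) h4
    by_cases h5 : σ.comp E.val.toRingHom = τ
    · rw [if_pos h5, if_pos h5]
    · rw [if_neg h5, if_neg h5, map_zero]

/-- from real to rational functions -/
lemma rational_of_realFor {b : (F →+* ℂ) → ℝ} (hb0 : b ≠ 0) (hb : IsNewFor ℝ n F S b) :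
    ∃ a : (F →+* ℂ) → ℚ, a ≠ 0 ∧ IsNewFor ℚ n F S a := by
  obtain ⟨σ0, hσ0⟩ := Function.ne_iff.1 hb0
  obtain ⟨e, he⟩ : ∃ e : Module.Dual ℚ ℝ, e (b σ0) ≠ 0 := by
    by_contra hcon
    exact hσ0 ((Module.forall_dual_apply_eq_zero_iff ℚ (b σ0)).1 fun e => by
      by_contra h
      exact hcon ⟨e, h⟩)
  exact ⟨fun σ => e (b σ), fun h0 => he (congrFun h0 σ0), newFor_functional hb e⟩

/-- functions in the orthogonal complement of the values -/
lemma exists_orthFor (hn : 3 ≤ n) (h : ∀ E ∈ S, Nonvanishing n E) (hF : ¬ Nonvanishing n F) :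
    ∃ b : (F →+* ℂ) → ℝ, b ≠ 0 ∧ IsNewFor ℝ n F S b ∧
      ∀ α ∈ Ker n F, ∑ σ : F →+* ℂ, b σ * value n σ α = 0 := by
  classical
  have h1 : ¬ Par n F ≤ Val n F := fun h2 => hF ((nonvanishing_iff (by omega) F).2 h2)
  obtain ⟨b, hb, hb0, hbW⟩ := exists_orth h1
  refine ⟨b, hb0, ⟨hb, fun E hE τ => fibre_sum hb E (fun ψ hψ => ?_) τ⟩, fun α hα => ?_⟩
  · refine hbW _ ?_ (pull_Par _ hψ)
    exact pull_Val hn _ ((nonvanishing_iff (by omega) _).1 (h E hE) hψ)
  · exact hbW _ (vec_mem_Val hα) (Val_le_Par (by omega) F (vec_mem_Val hα))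

open Classical in
/-- the shape of the fields with a new function -/
theorem shape_of_new (h : ∃ a : (F →+* ℂ) → ℚ, a ≠ 0 ∧ IsNewFor ℚ n F S a) : Shape n F S := by
  obtain ⟨a, ha0, ha⟩ := h
  have hne : (fun σ => ((a σ : ℚ) : ℂ)) ≠ 0 := fun h0 => ha0 (funext fun σ =>
    Rat.cast_eq_zero.1 (congrFun h0 σ))
  have hspan : spanFields S ≠ ⊤ := fun hS =>
    hne (eq_zero_of_span hS fun E hE τ => cast_fibreQ (ha.2 E hE τ))
  have haff : ∀ (L : Type) [Field L] [NumberField L] [Algebra F L], IsGalois F L →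
      ∀ A : Subgroup (L ≃ₐ[ℚ] L), IsFree F A → ∃ χ : A →* ℂ, ∀ B, IsKilled F χ B →
        fixedIn F B ∉ S := by
    intro L _ _ _ hgal A hA
    by_contra hcon
    refine hne (affine_zero hgal hA.1 hA.2 _ fun χ => ?_)
    by_contra hχ
    refine hcon ⟨χ, fun B hB hBS => hχ ⟨B, hB.1, hB.2.1, hB.2.2, fun τ => cast_fibreQ (ha.2 _ hBS τ)⟩⟩
  refine ⟨⟨a, ha0, ha⟩, hspan, fun E0 M hM => ?_, fun L _ _ _ hgal A hA => haff L hgal A hA,
    fun L _ _ _ hgal A hA hpow hS => ?_, fun ho E hE => ?_⟩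
  · by_contra hcon
    refine hspan ?_
    rw [eq_top_iff, ← span_monoid E0 M hM]
    unfold spanFields
    refine Submodule.span_mono ?_
    rintro x ⟨E, ⟨r, hr, rfl⟩, hx⟩
    refine ⟨_, ?_, hx⟩
    by_contra hE
    exact hcon ⟨r, hr, hE⟩
  · obtain ⟨χ, hχ⟩ := haff L hgal A hA
    refine isCyclic_of_injective_ringHom χ ?_
    rw [injective_iff_map_eq_one]
    intro a ha
    by_contra ha1
    have hB0 : Subgroup.zpowers (a : L ≃ₐ[ℚ] L) ≤ A := by
      rw [Subgroup.zpowers_le]
      exact a.2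
    refine hχ (Subgroup.zpowers (a : L ≃ₐ[ℚ] L)) ⟨hB0, ?_, ?_⟩ (hS _ hB0 ?_)
    · rintro h hh _ ⟨k, rfl⟩
      have h2 := hpow h hh a a.2
      have h3 : h * ((a : L ≃ₐ[ℚ] L)) ^ k * h⁻¹ = (h * (a : L ≃ₐ[ℚ] L) * h⁻¹) ^ k := by
        rw [conj_zpow]
      show h * ((a : L ≃ₐ[ℚ] L)) ^ k * h⁻¹ ∈ _
      rw [h3]
      exact Subgroup.zpow_mem _ h2 k
    · rintro b ⟨k, hk⟩
      have h2 : b = a ^ k := Subtype.ext hk.symm
      have h4 : χ.toHomUnits a = 1 := Units.ext ha
      have h5 : ((χ.toHomUnits (a ^ k) : ℂˣ) : ℂ) = 1 := by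
        rw [map_zpow, h4, one_zpow]
        rfl
      rw [h2]
      exact h5
    · intro h6
      rw [Subgroup.zpowers_eq_bot] at h6
      exact ha1 (Subtype.ext h6)
  · by_contra hcon
    refine ha0 (funext fun σ => ?_)
    have h1 : ∀ σ' : F →+* ℂ, σ'.comp E.val.toRingHom = σ.comp E.val.toRingHom → a σ' = a σ := by
      intro σ' hσ'
      by_cases h2 : σ' = σ
      · rw [h2]
      · by_cases h3 : σ' = conj σ
        · rw [h3, ha.1, (Nat.Odd.sub_odd ho odd_one).neg_one_pow, one_mul]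
        · exact absurd ⟨σ, σ', hσ'.symm, h2, h3⟩ hcon
    have h2 := ha.2 E hE (σ.comp E.val.toRingHom)
    rw [← Finset.sum_filter, Finset.sum_congr rfl (g := fun _ => a σ) (fun σ' hσ' => h1 σ'
      (Finset.mem_filter.1 hσ').2), Finset.sum_const, nsmul_eq_mul] at h2
    refine (mul_eq_zero.1 h2).resolve_left ?_
    have h3 : 0 < (Finset.filter (fun σ' : F →+* ℂ => σ'.comp E.val.toRingHom =
        σ.comp E.val.toRingHom) Finset.univ).card :=
      Finset.card_pos.2 ⟨σ, Finset.mem_filter.2 ⟨Finset.mem_univ _, rfl⟩⟩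
    exact_mod_cast h3.ne'

/-- the nonvanishing implies that the functions are detected -/
theorem detectsFor_of_nonvanishing (hn : 0 < n) (hF : Nonvanishing n F) : DetectsFor n F S := by
  intro b hb0 hb
  by_contra hcon
  have h1 : ∀ φ ∈ Val n F, ∑ σ : F →+* ℂ, b σ * φ σ = 0 := by
    intro φ hφ
    unfold Val at hφ
    refine Submodule.span_induction (p := fun φ _ => ∑ σ : F →+* ℂ, b σ * φ σ = 0) ?_ ?_ ?_ ?_ hφ
    · rintro _ ⟨α, hα, rfl⟩
      by_contra h2
      exact hcon ⟨α, hα, h2⟩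
    · exact Finset.sum_eq_zero fun σ _ => mul_zero _
    · intro x y _ _ hx hy
      have h2 : ∀ σ : F →+* ℂ, b σ * (x + y) σ = b σ * x σ + b σ * y σ := fun σ => mul_add _ _ _
      rw [Finset.sum_congr rfl fun σ _ => h2 σ, Finset.sum_add_distrib, hx, hy, add_zero]
    · intro c x _ hx
      have h2 : ∀ σ : F →+* ℂ, b σ * (c • x) σ = c * (b σ * x σ) := fun σ => by
        show b σ * (c * x σ) = _
        ring
      rw [Finset.sum_congr rfl fun σ _ => h2 σ, ← Finset.mul_sum, hx, mul_zero]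
  have h2 := h1 b ((nonvanishing_iff hn F).1 hF hb.1)
  refine hb0 (funext fun σ => ?_)
  have h3 := (Finset.sum_eq_zero_iff_of_nonneg (fun σ _ => mul_self_nonneg (b σ))).1 h2 σ
    (Finset.mem_univ σ)
  exact mul_self_eq_zero.1 h3

/-- **The local theorem.** -/
theorem nonvanishing_iff_shape (hn : 3 ≤ n) (h : ∀ E ∈ S, Nonvanishing n E) :
    Nonvanishing n F ↔ (Shape n F S → DetectsFor n F S) := by
  refine ⟨fun hF _ => detectsFor_of_nonvanishing (by omega) hF, fun hD => ?_⟩
  by_contra hF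
  obtain ⟨b, hb0, hb, hα⟩ := exists_orthFor hn h hF
  obtain ⟨α, hαK, hne⟩ := hD (shape_of_new (rational_of_realFor hb0 hb)) b hb0 hb
  exact hne (hα α hαK)

end

section

variable {n : ℕ}

/-- **Classes of fields which are closed under subfields.** -/
theorem class_shape (hn : 3 ≤ n) (P : ∀ (F : Type) [Field F] [NumberField F], Prop)
    (hP : ∀ (F : Type) [Field F] [NumberField F], P F → ∀ E : IntermediateField ℚ F, P E) :
    ((∀ (F : Type) [Field F] [NumberField F], P F → Nonvanishing n F) ↔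
      ∀ (F : Type) [Field F] [NumberField F], P F → Remaining n F → Shape n F (properSubfields F) →
        DetectsFor n F (properSubfields F)) := by
  refine ⟨fun h F _ _ hF _ _ => detectsFor_of_nonvanishing (by omega) (h F hF), fun h => ?_⟩
  suffices H : ∀ (d : ℕ) (F : Type) [Field F] [NumberField F], Module.finrank ℚ F ≤ d → P F →
      Nonvanishing n F from fun F _ _ hF => H _ F le_rfl hF
  intro d
  induction d with
  | zero =>
    intro F _ _ hd
    have : 0 < Module.finrank ℚ F := Module.finrank_pos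
    omega
  | succ d ih =>
    intro F _ _ hd hF
    have h1 : ∀ E : IntermediateField ℚ F, E ≠ ⊤ → Nonvanishing n E := by
      intro E hE
      refine ih E ?_ (hP F hF E)
      have h2 : Module.finrank ℚ E < Module.finrank ℚ F := by
        refine Submodule.finrank_lt (s := Subalgebra.toSubmodule E.toSubalgebra) fun htop => hE ?_
        rw [eq_top_iff]
        intro x _
        have : x ∈ Subalgebra.toSubmodule E.toSubalgebra := by
          rw [htop]
          exact Submodule.mem_top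
        exact this
      omega
    by_contra hcon
    exact hcon ((nonvanishing_iff_shape hn (S := properSubfields F) h1).2
      fun hs => h F hF (remaining_of_not hn h1 hcon) hs)

end

end Pool.Agent.W2helper89.ZS
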