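import Pool.Agent.W2helper89.ZS.New

/-!
# Fields which are spanned by subfields
-/

set_option autoImplicit false

namespace Pool.Agent.W2helper89.ZS

open GonP NumberField Pool.Agent.Q219.ZG Pool.Agent.Q219.ZN

section

variable {n : ℕ} {F : Type} [Field F] [NumberField F]

open Classical in
/-- the sum of the embeddings with coefficients whose sums over the embeddings with a given restriction to `E`
vanish -/
lemma sum_mem_eq_zero {c : (F →+* ℂ) → ℂ} {E : IntermediateField ℚ F}
    (h : ∀ τ : E →+* ℂ, ∑ σ : F →+* ℂ, (if σ.comp E.val.toRingHom = τ then c σ else 0) = 0)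
    {x : F} (hx : x ∈ E) : ∑ σ : F →+* ℂ, c σ * σ x = 0 := by
  have h1 : ∀ σ : F →+* ℂ, c σ * σ x =
      ∑ τ : E →+* ℂ, (if σ.comp E.val.toRingHom = τ then c σ else 0) * τ ⟨x, hx⟩ := by
    intro σ
    rw [Finset.sum_eq_single (σ.comp E.val.toRingHom)]
    · rw [if_pos rfl]
      rfl
    · intro τ _ hτ
      rw [if_neg (Ne.symm hτ), zero_mul]
    · intro h2
      exact absurd (Finset.mem_univ _) h2
  rw [Finset.sum_congr rfl fun σ _ => h1 σ, Finset.sum_comm]
  refine Finset.sum_eq_zero fun τ _ => ?_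
  rw [← Finset.sum_mul, h τ, zero_mul]

/-- the embeddings are linearly independent -/
lemma eq_zero_of_sum {c : (F →+* ℂ) → ℂ} (h : ∀ x : F, ∑ σ : F →+* ℂ, c σ * σ x = 0) : c = 0 := by
  have h1 := linearIndependent_monoidHom F ℂ
  have hinj : Function.Injective (fun σ : F →+* ℂ => (σ : F →* ℂ)) := by
    intro σ τ hστ
    exact RingHom.ext fun x => DFunLike.congr_fun hστ x
  have h2 := h1.comp _ hinj
  rw [Fintype.linearIndependent_iff] at h2
  refine funext fun σ => h2 c ?_ σ
  funext x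
  rw [Finset.sum_apply]
  exact h x

open Classical in
/-- functions whose sums vanish for a set of subfields which spans the field -/
lemma eq_zero_of_span {c : (F →+* ℂ) → ℂ} {S : Set (IntermediateField ℚ F)}
    (hS : spanFields S = ⊤)
    (h : ∀ E ∈ S, ∀ τ : E →+* ℂ,
      ∑ σ : F →+* ℂ, (if σ.comp E.val.toRingHom = τ then c σ else 0) = 0) : c = 0 := by
  refine eq_zero_of_sum fun x => ?_
  have hx : x ∈ spanFields S := by
    rw [hS]
    exact Submodule.mem_top
  unfold spanFields at hx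
  refine Submodule.span_induction (p := fun x _ => ∑ σ : F →+* ℂ, c σ * σ x = 0) ?_ ?_ ?_ ?_ hx
  · rintro y ⟨E, hE, hy⟩
    exact sum_mem_eq_zero (h E hE) hy
  · exact Finset.sum_eq_zero fun σ _ => by rw [map_zero, mul_zero]
  · intro y z _ _ hy hz
    have h1 : ∀ σ : F →+* ℂ, c σ * σ (y + z) = c σ * σ y + c σ * σ z := fun σ => by
      rw [map_add, mul_add]
    rw [Finset.sum_congr rfl fun σ _ => h1 σ, Finset.sum_add_distrib, hy, hz, add_zero]
  · intro q y _ hy
    have h1 : ∀ σ : F →+* ℂ, c σ * σ (q • y) = (q : ℂ) * (c σ * σ y) := fun σ => by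
      rw [Rat.smul_def, map_mul, map_ratCast]
      ring
    rw [Finset.sum_congr rfl fun σ _ => h1 σ, ← Finset.mul_sum, hy, mul_zero]

open Classical in
/-- real functions as complex functions -/
lemma cast_fibre {b : (F →+* ℂ) → ℝ} {E : IntermediateField ℚ F} {τ : E →+* ℂ}
    (h : ∑ σ : F →+* ℂ, (if σ.comp E.val.toRingHom = τ then b σ else 0) = 0) :
    ∑ σ : F →+* ℂ, (if σ.comp E.val.toRingHom = τ then ((b σ : ℝ) : ℂ) else 0) = 0 := by
  have h1 := congrArg (fun x : ℝ => (x : ℂ)) h
  simp only [Complex.ofReal_sum, Complex.ofReal_zero] at h1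
  refine Eq.trans (Finset.sum_congr rfl fun σ _ => ?_) h1
  by_cases h5 : σ.comp E.val.toRingHom = τ
  · rw [if_pos h5, if_pos h5]
  · rw [if_neg h5, if_neg h5, Complex.ofReal_zero]

open Classical in
/-- rational functions as complex functions -/
lemma cast_fibreQ {b : (F →+* ℂ) → ℚ} {E : IntermediateField ℚ F} {τ : E →+* ℂ}
    (h : ∑ σ : F →+* ℂ, (if σ.comp E.val.toRingHom = τ then b σ else 0) = 0) :
    ∑ σ : F →+* ℂ, (if σ.comp E.val.toRingHom = τ then ((b σ : ℚ) : ℂ) else 0) = 0 := by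
  have h1 := congrArg (fun x : ℚ => (x : ℂ)) h
  simp only [Rat.cast_sum, Rat.cast_zero] at h1
  refine Eq.trans (Finset.sum_congr rfl fun σ _ => ?_) h1
  by_cases h5 : σ.comp E.val.toRingHom = τ
  · rw [if_pos h5, if_pos h5]
  · rw [if_neg h5, if_neg h5, Rat.cast_zero]

/-- **Fields which are spanned by subfields.** -/
theorem nonvanishing_of_span (hn : 3 ≤ n) {S : Set (IntermediateField ℚ F)} (hS : spanFields S = ⊤)
    (h : ∀ E ∈ S, Nonvanishing n E) : Nonvanishing n F := by
  classical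
  by_contra hF
  have h1 : ¬ Par n F ≤ Val n F := fun h2 => hF ((nonvanishing_iff (by omega) F).2 h2)
  obtain ⟨b, hb, hb0, hbW⟩ := exists_orth h1
  refine hb0 ?_
  have h2 : (fun σ => ((b σ : ℝ) : ℂ)) = 0 := by
    refine eq_zero_of_span hS fun E hE τ => cast_fibre (fibre_sum hb E (fun ψ hψ => ?_) τ)
    refine hbW _ ?_ (pull_Par _ hψ)
    exact pull_Val hn _ ((nonvanishing_iff (by omega) _).1 (h E hE) hψ)
  funext σ
  have h3 := congrFun h2 σ
  exact Complex.ofReal_eq_zero.1 h3

/-- a field with a new function is not spanned by its proper subfields -/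
lemma span_ne_top {n : ℕ} (h : HasNew n F) : spanFields {E : IntermediateField ℚ F | E ≠ ⊤} ≠ ⊤ := by
  classical
  intro hS
  obtain ⟨a, ha0, -, ha⟩ := h
  refine ha0 ?_
  have h2 : (fun σ => ((a σ : ℚ) : ℂ)) = 0 := eq_zero_of_span hS fun E hE τ => cast_fibreQ (ha E hE τ)
  funext σ
  have h3 := congrFun h2 σ
  exact Rat.cast_eq_zero.1 h3

/-- **Multiplicative sets.** -/
theorem span_monoid (E0 : IntermediateField ℚ F) (M : Submonoid F)
    (hM : E0 ⊔ IntermediateField.adjoin ℚ (M : Set F) = ⊤) :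
    spanFields {E : IntermediateField ℚ F | ∃ r ∈ M, E = E0 ⊔ IntermediateField.adjoin ℚ {r}} = ⊤ := by
  set M' : Submonoid F := E0.toSubalgebra.toSubmonoid ⊔ M with hM'
  have h1 : IntermediateField.adjoin ℚ (M' : Set F) = ⊤ := by
    rw [eq_top_iff, ← hM, sup_le_iff]
    constructor
    · intro x hx
      refine IntermediateField.subset_adjoin ℚ _ ?_
      have h2 : E0.toSubalgebra.toSubmonoid ≤ M' := le_sup_left
      exact h2 hx
    · refine IntermediateField.adjoin.mono ℚ _ _ ?_
      have h2 : M ≤ M' := le_sup_right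
      exact h2
  have h2 : Algebra.adjoin ℚ (M' : Set F) = ⊤ := by
    have h3 := IntermediateField.adjoin_toSubalgebra (F := ℚ) (M' : Set F)
    rw [h1, IntermediateField.top_toSubalgebra] at h3
    exact h3.symm
  rw [eq_top_iff]
  intro x _
  have h3 : x ∈ Submodule.span ℚ (M' : Set F) := by
    have h4 : x ∈ Subalgebra.toSubmodule (Algebra.adjoin ℚ (M' : Set F)) := by
      rw [h2]
      exact Submodule.mem_top
    rw [Algebra.adjoin_eq_span, Submonoid.closure_eq] at h4
    exact h4
  unfold spanFields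
  refine Submodule.span_mono ?_ h3
  intro y hy
  obtain ⟨e, he, r, hr, rfl⟩ := Submonoid.mem_sup.1 hy
  refine ⟨_, ⟨r, hr, rfl⟩, ?_⟩
  refine mul_mem ?_ ?_
  · have h5 : E0 ≤ E0 ⊔ IntermediateField.adjoin ℚ {r} := le_sup_left
    exact h5 he
  · have h5 : IntermediateField.adjoin ℚ {r} ≤ E0 ⊔ IntermediateField.adjoin ℚ {r} := le_sup_right
    exact h5 (IntermediateField.mem_adjoin_simple_self ℚ r)

end

end Pool.Agent.W2helper89.ZS
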